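import Pool.Agent.H549R2.Convex3

/-!
# The strong Bruhat order: definitions
-/

namespace Pool.Agent.H549R2.BR

open Finset Pool.Agent.H549R2.Convex

/-- One step up in the strong Bruhat order of the symmetric group: the values at two positions
`i < j` with `σ i < σ j` are exchanged. -/
def Step {N : ℕ} (σ τ : Equiv.Perm (Fin N)) : Prop :=
  ∃ i j : Fin N, i < j ∧ σ i < σ j ∧ τ = σ * Equiv.swap i j

/-- The strong Bruhat order: the reflexive transitive closure of the steps. -/
def BLE {N : ℕ} (σ τ : Equiv.Perm (Fin N)) : Prop := Relation.ReflTransGen Step σ τ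

/-- The number of permutations `σ` with `σ ≤ w` in the strong Bruhat order, where `l` is the list of
the values `w 0, w 1, ...` of the permutation `w` of `{0, ..., l.length - 1}`; it is `0` for lists
that are not of this form. -/
noncomputable def below (l : List ℕ) : ℕ :=
  Nat.card {σ : Equiv.Perm (Fin l.length) // ∃ w : Equiv.Perm (Fin l.length),
    (∀ i : Fin l.length, (w i).val = l.get i) ∧ BLE σ w}

/-- rank function of a permutation -/
def rnk {N : ℕ} (σ : Equiv.Perm (Fin N)) (p q : ℕ) : ℕ :=
  (univ.filter (fun i : Fin N => i.val < p ∧ q ≤ (σ i).val)).card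

/-- the complementary rank function -/
def sw {N : ℕ} (σ : Equiv.Perm (Fin N)) (p q : ℕ) : ℕ :=
  (univ.filter (fun i : Fin N => p ≤ i.val ∧ (σ i).val < q)).card

/-- block matrix of a permutation of `n` blocks of size `m` -/
def bm {n m : ℕ} (σ : Equiv.Perm (Fin (n * m))) : Fin n → Fin n → ℕ := fun k l =>
  (univ.filter (fun i : Fin (n * m) => i.val / m = k.val ∧ (σ i).val / m = l.val)).card

/-- sum of the entries in the upper right corner -/
def NE {n : ℕ} (X : Fin n → Fin n → ℕ) (P Q : ℕ) : ℕ :=
  ∑ k, ∑ l, if k.val < P ∧ Q ≤ l.val then X k l else 0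

/-- sum of the entries in the lower left corner -/
def SW {n : ℕ} (X : Fin n → Fin n → ℕ) (P Q : ℕ) : ℕ :=
  ∑ k, ∑ l, if P ≤ k.val ∧ l.val < Q then X k l else 0

/-- domination of the corner sums off the diagonal -/
def Dom {n : ℕ} (X Y : Fin n → Fin n → ℕ) : Prop :=
  (∀ P Q, P ≤ Q → NE X P Q ≤ NE Y P Q) ∧ ∀ P Q, Q ≤ P → SW X P Q ≤ SW Y P Q

/-- row sums equal column sums -/
def Bal {n : ℕ} (X : Fin n → Fin n → ℕ) : Prop := ∀ l, ∑ k, X k l = ∑ k, X l k

/-- incidence matrix of a map, off the diagonal -/
def offw {n : ℕ} (φ : Fin n → Fin n) : Fin n → Fin n → ℕ := fun k l =>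
  if φ k = l ∧ k ≠ l then 1 else 0

/-- the maps with a balanced and dominated matrix -/
def Adm {n m : ℕ} (Y : Fin n → Fin n → ℕ) (g : Fin m → Fin n → Fin n) : Prop :=
  Bal (∑ a, offw (g a)) ∧ Dom (∑ a, offw (g a)) Y

/-- their number -/
noncomputable def cntA (n m : ℕ) (Y : Fin n → Fin n → ℕ) : ℕ :=
  Nat.card {g : Fin m → Fin n → Fin n // Adm Y g}

/-! ### The explicit permutations -/

/-- sum of the entries of the row to the right -/
def tR (X : ℕ → ℕ → ℕ) (n k l : ℕ) : ℕ := ∑ l' ∈ range n, if l < l' then X k l' else 0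

/-- sum of the entries of the column above -/
def uC (X : ℕ → ℕ → ℕ) (n k l : ℕ) : ℕ := ∑ k' ∈ range n, if k' < k then X k' l else 0

/-- the entry `(p, q)` of the permutation matrix -/
def wB (X : ℕ → ℕ → ℕ) (n m p q : ℕ) : Prop :=
  tR X n (p / m) (q / m) ≤ p % m ∧ p % m < tR X n (p / m) (q / m) + X (p / m) (q / m) ∧
    (m - 1 - q % m) + tR X n (p / m) (q / m) = p % m + uC X n (p / m) (q / m)

instance (X : ℕ → ℕ → ℕ) (n m p q : ℕ) : Decidable (wB X n m p q) := by unfold wB; infer_instance

/-- the value at `p` -/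
def wV (X : ℕ → ℕ → ℕ) (n m p : ℕ) : ℕ := ∑ q ∈ range (n * m), if wB X n m p q then q else 0

/-! ### The matrix of a staircase -/

/-- live cuts -/
def live (A : List (List Bool)) (t : ℕ) : Bool := ent A t (t + 1) && ent A (t + 1) t

/-- useful cells -/
def use (A : List (List Bool)) (i j : ℕ) : Bool :=
  ent A i j && (List.range A.length).all (fun t =>
    !(decide (min i j ≤ t) && decide (t < max i j)) || live A t)

/-- number of useful cells crossing the cut `t` in the upper right part -/
def cN (A : List (List Bool)) (t : ℕ) : ℕ :=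
  ∑ i ∈ range A.length, ∑ j ∈ range A.length, if i ≤ t ∧ t < j ∧ use A i j = true then 1 else 0

/-- number of useful cells crossing the cut `t` in the lower left part -/
def cS (A : List (List Bool)) (t : ℕ) : ℕ :=
  ∑ i ∈ range A.length, ∑ j ∈ range A.length, if j ≤ t ∧ t < i ∧ use A i j = true then 1 else 0

/-- the matrix off the diagonal -/
def yA (A : List (List Bool)) (k l : ℕ) : ℕ :=
  (if k ≠ l ∧ use A k l = true then 1 else 0) + (if k = l + 1 then cN A l else 0) +
    (if l = k + 1 then cS A k else 0)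

/-- the matrix with line sums `m` -/
def xA (A : List (List Bool)) (m k l : ℕ) : ℕ :=
  if k = l then m - ∑ l' ∈ range A.length, (if k = l' then 0 else yA A k l') else yA A k l

end Pool.Agent.H549R2.BR
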