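import Pool.Agent.H549R2.NRed
import Pool.Agent.H549R2.BR.Defs
import Pool.Agent.H618R2.Skew.T4b
import Pool.Agent.H618R2.Skew.T7

/-!
# The 0-1 permanent reduces to matrices of staircase shape
-/

namespace Pool.Agent.NPC.H549BR

open Pool.Agent.H549R2.Convex Pool.Agent.H618R2.Skew Pool.Agent.NPC.Cnt Pool.Agent.NPC.H549NRed
open Pool.Agent.NPC.H549Convex (LL)
open Pool.Agent.NPC.H618Skew (RedId StairId qsS qsS_p psS psS_p post_one qry Cz)

theorem hredId : RedId := fun A hn hsq hdeg => reduction A hn hsq hdeg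

theorem hstairId : StairId := fun A D M => HS_staircase A D M

/-- the 0-1 permanent reduces to matrices of staircase shape -/
theorem nred_stair : NRed (fun _ : LL => True) F Staircase F := by
  refine ⟨qsS, fun p => psS (p.1, p.2, 0), qsS_p, ?_, fun A _ => ⟨?_, ?_⟩⟩
  · have hp : Poly (fun q : LL × List ℕ => ((q.1, q.2, 0) : Cz)) :=
      Poly.pair (Poly.fst Poly.id) (Poly.pair (Poly.snd Poly.id) (Poly.const 0))
    exact Poly.comp psS_p hp
  · intro B hB
    rw [qsS, List.mem_map] at hB
    obtain ⟨x, _, rfl⟩ := hB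
    exact hstairId _ _ _
  · exact post_one hredId hstairId A F (fun _ _ => rfl)

end Pool.Agent.NPC.H549BR
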