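import Pool.Agent.H549R2.BR.P0

/-!
# The queries of the reduction are computed in polynomial time
-/

namespace Pool.Agent.NPC.H549BR

open Pool.Agent.H549R2.Convex Pool.Agent.H549R2.BR Pool.Agent.NPC.Cnt
open Pool.Agent.NPC.H549Convex (LL poly_prod upoly_fact upoly_choose ent_poly sqB sqB_poly)
open Pool.Agent.NPC.H549PM (alt alt_poly alt_eq alt_congr upoly_min)

section General

variable {α : Type} [TEnc α]

theorem list_sum_range (n : ℕ) (f : ℕ → ℕ) :
    ((List.range n).map f).sum = ∑ i ∈ Finset.range n, f i := by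
  induction n with
  | zero => simp
  | succ n ih => rw [List.range_succ, List.map_append, List.sum_append, ih,
      Finset.sum_range_succ]; simp

theorem psum {n : α → ℕ} {f : α → ℕ → ℕ} (hn : UPoly n)
    (hf : Poly (fun p : α × ℕ => f p.1 p.2)) :
    Poly (fun a => ∑ i ∈ Finset.range (n a), f a i) := by
  refine (Poly.sum (Poly.map (F := f) hn.range hf)).congr fun a => ?_
  exact list_sum_range _ _

theorem pent {A : α → LL} {i j : α → ℕ} (hA : Poly A) (hi : Poly i) (hj : Poly j) :
    Poly (fun a => ent (A a) (i a) (j a)) :=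
  ent_poly.comp (Poly.pair hA (Poly.pair hi hj))

theorem plive {A : α → LL} {t : α → ℕ} (hA : Poly A) (ht : Poly t) :
    Poly (fun a => live (A a) (t a)) :=
  Poly.and (pent hA ht (Poly.succ ht)) (pent hA (Poly.succ ht) ht)

theorem ulen {A : α → LL} (hA : Poly A) : UPoly (fun a => (A a).length) := UPoly.length hA

theorem puse {A : α → LL} {i j : α → ℕ} (hA : Poly A) (hi : Poly i) (hj : Poly j) :
    Poly (fun a => use (A a) (i a) (j a)) := by
  refine Poly.and (pent hA hi hj) ?_
  refine Poly.all (p := fun (a : α) t => !(decide (min (i a) (j a) ≤ t) &&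
    decide (t < max (i a) (j a))) || live (A a) t) (Poly.range_length hA) ?_
  have hi' : Poly (fun p : α × ℕ => i p.1) := hi.comp (Poly.fst Poly.id)
  have hj' : Poly (fun p : α × ℕ => j p.1) := hj.comp (Poly.fst Poly.id)
  have hA' : Poly (fun p : α × ℕ => A p.1) := hA.comp (Poly.fst Poly.id)
  have ht : Poly (fun p : α × ℕ => p.2) := Poly.snd Poly.id
  exact Poly.or (Poly.not (Poly.and (Poly.decide_le (Poly.min hi' hj') ht)
    (Poly.decide_lt ht (Poly.max hi' hj')))) (plive hA' ht)

theorem pcN {A : α → LL} {t : α → ℕ} (hA : Poly A) (ht : Poly t) :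
    Poly (fun a => cN (A a) (t a)) := by
  refine psum (f := fun a i => ∑ j ∈ Finset.range (A a).length,
    if i ≤ t a ∧ t a < j ∧ use (A a) i j = true then 1 else 0) (ulen hA) ?_
  refine psum (f := fun (p : α × ℕ) j =>
    if p.2 ≤ t p.1 ∧ t p.1 < j ∧ use (A p.1) p.2 j = true then 1 else 0)
    (ulen (hA.comp (Poly.fst Poly.id))) ?_
  have ht' : Poly (fun p : (α × ℕ) × ℕ => t p.1.1) := ht.comp (Poly.fst (Poly.fst Poly.id))
  have hA' : Poly (fun p : (α × ℕ) × ℕ => A p.1.1) := hA.comp (Poly.fst (Poly.fst Poly.id))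
  have hi : Poly (fun p : (α × ℕ) × ℕ => p.1.2) := Poly.snd (Poly.fst Poly.id)
  have hj : Poly (fun p : (α × ℕ) × ℕ => p.2) := Poly.snd Poly.id
  exact Poly.ite (Poly.decide_and (Poly.decide_le hi ht') (Poly.decide_and (Poly.decide_lt ht' hj)
    (Poly.decide_bool (puse hA' hi hj)))) (Poly.const 1) (Poly.const 0)

theorem pcS {A : α → LL} {t : α → ℕ} (hA : Poly A) (ht : Poly t) :
    Poly (fun a => cS (A a) (t a)) := by
  refine psum (f := fun a i => ∑ j ∈ Finset.range (A a).length,
    if j ≤ t a ∧ t a < i ∧ use (A a) i j = true then 1 else 0) (ulen hA) ?_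
  refine psum (f := fun (p : α × ℕ) j =>
    if j ≤ t p.1 ∧ t p.1 < p.2 ∧ use (A p.1) p.2 j = true then 1 else 0)
    (ulen (hA.comp (Poly.fst Poly.id))) ?_
  have ht' : Poly (fun p : (α × ℕ) × ℕ => t p.1.1) := ht.comp (Poly.fst (Poly.fst Poly.id))
  have hA' : Poly (fun p : (α × ℕ) × ℕ => A p.1.1) := hA.comp (Poly.fst (Poly.fst Poly.id))
  have hi : Poly (fun p : (α × ℕ) × ℕ => p.1.2) := Poly.snd (Poly.fst Poly.id)
  have hj : Poly (fun p : (α × ℕ) × ℕ => p.2) := Poly.snd Poly.id
  exact Poly.ite (Poly.decide_and (Poly.decide_le hj ht') (Poly.decide_and (Poly.decide_lt ht' hi)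
    (Poly.decide_bool (puse hA' hi hj)))) (Poly.const 1) (Poly.const 0)

theorem pyA {A : α → LL} {k l : α → ℕ} (hA : Poly A) (hk : Poly k) (hl : Poly l) :
    Poly (fun a => yA (A a) (k a) (l a)) := by
  refine Poly.add (Poly.add ?_ ?_) ?_
  · exact Poly.ite (Poly.decide_and (Poly.decide_not (Poly.decide_eq hk hl))
      (Poly.decide_bool (puse hA hk hl))) (Poly.const 1) (Poly.const 0)
  · exact Poly.ite (Poly.decide_eq hk (Poly.succ hl)) (pcN hA hl) (Poly.const 0)
  · exact Poly.ite (Poly.decide_eq hl (Poly.succ hk)) (pcS hA hk) (Poly.const 0)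

theorem pxA {A : α → LL} {m k l : α → ℕ} (hA : Poly A) (hm : Poly m) (hk : Poly k)
    (hl : Poly l) : Poly (fun a => xA (A a) (m a) (k a) (l a)) := by
  refine Poly.ite (Poly.decide_eq hk hl) (Poly.sub hm ?_) (pyA hA hk hl)
  refine psum (f := fun a l' => if k a = l' then 0 else yA (A a) (k a) l') (ulen hA) ?_
  have hk' : Poly (fun p : α × ℕ => k p.1) := hk.comp (Poly.fst Poly.id)
  exact Poly.ite (Poly.decide_eq hk' (Poly.snd Poly.id)) (Poly.const 0)
    (pyA (hA.comp (Poly.fst Poly.id)) hk' (Poly.snd Poly.id))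

theorem ptR {A : α → LL} {m k l : α → ℕ} (hA : Poly A) (hm : Poly m) (hk : Poly k)
    (hl : Poly l) : Poly (fun a => tR (xA (A a) (m a)) (A a).length (k a) (l a)) := by
  refine psum (f := fun a l' => if l a < l' then xA (A a) (m a) (k a) l' else 0) (ulen hA) ?_
  exact Poly.ite (Poly.decide_lt (hl.comp (Poly.fst Poly.id)) (Poly.snd Poly.id))
    (pxA (hA.comp (Poly.fst Poly.id)) (hm.comp (Poly.fst Poly.id)) (hk.comp (Poly.fst Poly.id))
      (Poly.snd Poly.id)) (Poly.const 0)

theorem puC {A : α → LL} {m k l : α → ℕ} (hA : Poly A) (hm : Poly m) (hk : Poly k)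
    (hl : Poly l) : Poly (fun a => uC (xA (A a) (m a)) (A a).length (k a) (l a)) := by
  refine psum (f := fun a k' => if k' < k a then xA (A a) (m a) k' (l a) else 0) (ulen hA) ?_
  exact Poly.ite (Poly.decide_lt (Poly.snd Poly.id) (hk.comp (Poly.fst Poly.id)))
    (pxA (hA.comp (Poly.fst Poly.id)) (hm.comp (Poly.fst Poly.id)) (Poly.snd Poly.id)
      (hl.comp (Poly.fst Poly.id))) (Poly.const 0)

theorem pwB {A : α → LL} {m p q : α → ℕ} (hA : Poly A) (hm : Poly m) (hp : Poly p)
    (hq : Poly q) : Poly (fun a => decide (wB (xA (A a) (m a)) (A a).length (m a) (p a) (q a))) := by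
  have hpd : Poly (fun a => p a / m a) := Poly.div hp hm
  have hpm : Poly (fun a => p a % m a) := Poly.mod hp hm
  have hqd : Poly (fun a => q a / m a) := Poly.div hq hm
  have hqm : Poly (fun a => q a % m a) := Poly.mod hq hm
  have h1 := ptR hA hm hpd hqd
  have h2 := puC hA hm hpd hqd
  have h3 := pxA hA hm hpd hqd
  have h4 : Poly (fun a => m a - 1 - q a % m a) := Poly.sub (Poly.sub hm (Poly.const 1)) hqm
  refine (Poly.decide_and (Poly.decide_le h1 hpm) (Poly.decide_and
    (Poly.decide_lt hpm (Poly.add h1 h3))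
    (Poly.decide_eq (Poly.add h4 h1) (Poly.add hpm h2)))).congr fun a => ?_
  exact decide_eq_decide.2 Iff.rfl

theorem pwV {A : α → LL} {m p : α → ℕ} (hA : Poly A) (hm : UPoly m) (hp : Poly p) :
    Poly (fun a => wV (xA (A a) (m a)) (A a).length (m a) (p a)) := by
  refine psum (f := fun a q => if wB (xA (A a) (m a)) (A a).length (m a) (p a) q then q else 0)
    (UPoly.mul (ulen hA) hm) ?_
  exact Poly.ite (pwB (hA.comp (Poly.fst Poly.id)) (hm.toPoly.comp (Poly.fst Poly.id))
    (hp.comp (Poly.fst Poly.id)) (Poly.snd Poly.id)) (Poly.snd Poly.id) (Poly.const 0)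

end General

/-! ### The parameters -/

/-- bound for the entries of the matrix -/
def cc (A : LL) : ℕ := 1 + 2 * (A.length * A.length)

/-- bound for the degree -/
def DD (A : LL) : ℕ := 2 * A.length * (A.length * A.length * cc A)

/-- the smallest block size is `ss A + 1` -/
def ss (A : LL) : ℕ := A.length * cc A + 2

/-- the block size of query number `t` -/
def mm (A : LL) (t : ℕ) : ℕ := DD A + ss A + 1 - t

/-- test: square matrices containing the diagonal -/
def okB (A : LL) : Bool := sqB A && (List.range A.length).all (fun i => ent A i i)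

/-- the permutation of query number `t` -/
def qB (A : LL) (t : ℕ) : List ℕ :=
  (List.range (A.length * mm A t)).map (fun p => wV (xA A (mm A t)) A.length (mm A t) p)

/-- the queries -/
def qsB (A : LL) : List (List ℕ) :=
  bif okB A then (List.range (DD A + 1)).map (fun t => qB A t) else []

/-- one term of the final computation -/
def tmB (p : LL × List ℕ) (t : ℕ) : ℕ :=
  if t ≤ DD p.1 then (DD p.1 + ss p.1 - 1 - t).choose (min (ss p.1 - 1) (DD p.1 + ss p.1 - 1 - t)) *
    (p.2.getD t 0 / (mm p.1 t).factorial ^ p.1.length) else 0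

/-- the final computation -/
def postB (p : LL × List ℕ) : ℕ :=
  bif okB p.1 then alt (DD p.1 + ss p.1) (tmB p) else 0

section

variable {α : Type} [TEnc α]

theorem ucc {A : α → LL} (hA : Poly A) : UPoly (fun a => cc (A a)) :=
  UPoly.add (UPoly.const 1) (UPoly.mul (UPoly.const 2) (UPoly.mul (ulen hA) (ulen hA)))

theorem uDD {A : α → LL} (hA : Poly A) : UPoly (fun a => DD (A a)) :=
  UPoly.mul (UPoly.mul (UPoly.const 2) (ulen hA)) (UPoly.mul (UPoly.mul (ulen hA) (ulen hA))
    (ucc hA))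

theorem uss {A : α → LL} (hA : Poly A) : UPoly (fun a => ss (A a)) :=
  UPoly.add (UPoly.mul (ulen hA) (ucc hA)) (UPoly.const 2)

theorem umm {A : α → LL} {t : α → ℕ} (hA : Poly A) (ht : Poly t) :
    UPoly (fun a => mm (A a) (t a)) := by
  have h : UPoly (fun a => DD (A a) + ss (A a) + 1) :=
    UPoly.add (UPoly.add (uDD hA) (uss hA)) (UPoly.const 1)
  exact UPoly.of_le (Poly.sub h.toPoly ht) h fun _ => Nat.sub_le _ _

theorem pok {A : α → LL} (hA : Poly A) : Poly (fun a => okB (A a)) := by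
  refine Poly.and (sqB_poly.comp hA) ?_
  exact Poly.all (p := fun (a : α) i => ent (A a) i i) (Poly.range_length hA)
    (pent (hA.comp (Poly.fst Poly.id)) (Poly.snd Poly.id) (Poly.snd Poly.id))

theorem pqB : Poly (fun p : LL × ℕ => qB p.1 p.2) := by
  have hm : UPoly (fun p : LL × ℕ => mm p.1 p.2) := umm (Poly.fst Poly.id) (Poly.snd Poly.id)
  refine Poly.map (F := fun (p : LL × ℕ) x => wV (xA p.1 (mm p.1 p.2)) p.1.length (mm p.1 p.2) x)
    (UPoly.mul (ulen (Poly.fst Poly.id)) hm).range ?_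
  exact pwV (Poly.fst (Poly.fst Poly.id)) (hm.comp (Poly.fst Poly.id)) (Poly.snd Poly.id)

theorem pqsB : Poly qsB := by
  refine Poly.cond (pok Poly.id) ?_ (Poly.const [])
  exact Poly.map (F := fun (A : LL) t => qB A t) (UPoly.add (uDD Poly.id) (UPoly.const 1)).range
    pqB

theorem upoly_fact_pow {m n : α → ℕ} (hm : UPoly m) (hn : UPoly n) :
    Poly (fun a => (n a).factorial ^ m a) := by
  have h1 : Poly (fun a => (List.range (m a)).map (fun _ => (n a).factorial)) :=
    Poly.map (F := fun (a : α) (_ : ℕ) => (n a).factorial) hm.range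
      ((upoly_fact hn).comp (Poly.fst Poly.id))
  refine (poly_prod h1).congr fun a => ?_
  rw [List.map_const', List.prod_replicate, List.length_range]

theorem ptmB : Poly (fun z : (LL × List ℕ) × ℕ => tmB z.1 z.2) := by
  have hA : Poly (fun z : (LL × List ℕ) × ℕ => z.1.1) := Poly.fst (Poly.fst Poly.id)
  have ht : Poly (fun z : (LL × List ℕ) × ℕ => z.2) := Poly.snd Poly.id
  have hD : UPoly (fun z : (LL × List ℕ) × ℕ => DD z.1.1) := uDD hA
  have hs : UPoly (fun z : (LL × List ℕ) × ℕ => ss z.1.1) := uss hA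
  have h1 : UPoly (fun z : (LL × List ℕ) × ℕ => DD z.1.1 + ss z.1.1 - 1 - z.2) :=
    UPoly.of_le (Poly.sub (Poly.sub (UPoly.add hD hs).toPoly (Poly.const 1)) ht)
      (UPoly.add hD hs) fun _ => (Nat.sub_le _ _).trans (Nat.sub_le _ _)
  have h2 : UPoly (fun z : (LL × List ℕ) × ℕ => min (ss z.1.1 - 1) (DD z.1.1 + ss z.1.1 - 1 - z.2)) :=
    upoly_min (Poly.sub hs.toPoly (Poly.const 1)) h1
  refine Poly.ite (Poly.decide_le ht hD.toPoly) (Poly.mul (upoly_choose h1 h2
    fun _ => Nat.min_le_right _ _) (Poly.div ?_ ?_)) (Poly.const 0)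
  · exact Poly.getD (Poly.snd (Poly.fst Poly.id)) ht (Poly.const 0)
  · exact upoly_fact_pow (ulen hA) (umm hA ht)

theorem ppostB : Poly postB := by
  refine Poly.cond (pok (Poly.fst Poly.id)) ?_ (Poly.const 0)
  exact alt_poly (g := tmB) (UPoly.add (uDD (Poly.fst Poly.id)) (uss (Poly.fst Poly.id))) ptmB

end

end Pool.Agent.NPC.H549BR
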