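import Pool.Agent.H549R2.BR.Defs

namespace Pool.Agent.H549R2.BR

open Finset

/-- one step does not decrease the rank function -/
theorem crit_step {N : ℕ} (σ : Equiv.Perm (Fin N)) (i j : Fin N) (hij : i < j) (h : σ i < σ j)
    (p q : ℕ) : rnk σ p q ≤ rnk (σ * Equiv.swap i j) p q := by
  unfold rnk
  by_cases hp : j.val < p
  · apply Finset.card_le_card_of_injOn (Equiv.swap i j)
    · intro x hx
      simp only [coe_filter, Set.mem_ofPred_eq, mem_univ, true_and] at hx ⊢
      refine ⟨?_, by simpa using hx.2⟩
      by_cases h1 : x = i
      · rw [h1, Equiv.swap_apply_left]; exact hp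
      · by_cases h2 : x = j
        · rw [h2, Equiv.swap_apply_right]
          have : i.val < j.val := hij
          omega
        · rw [Equiv.swap_apply_of_ne_of_ne h1 h2]; exact hx.1
    · exact (Equiv.injective _).injOn
  · apply Finset.card_le_card
    intro x hx
    simp only [mem_filter, mem_univ, true_and] at hx ⊢
    refine ⟨hx.1, ?_⟩
    have h2 : x ≠ j := by rintro rfl; exact hp hx.1
    by_cases h1 : x = i
    · subst h1
      rw [Equiv.Perm.mul_apply, Equiv.swap_apply_left]
      have : (σ x).val < (σ j).val := h
      omega
    · rw [Equiv.Perm.mul_apply, Equiv.swap_apply_of_ne_of_ne h1 h2]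
      exact hx.2

/-- the rank function after one step, outside the rectangle -/
theorem crit_out {N : ℕ} (σ : Equiv.Perm (Fin N)) (a b : Fin N) (hab : a < b)
    (p q : ℕ) (h : p ≤ a.val ∨ b.val < p ∨ q ≤ (σ a).val ∨ (σ b).val < q) (hs : σ a < σ b) :
    rnk (σ * Equiv.swap a b) p q ≤ rnk σ p q := by
  unfold rnk
  have hab' : a.val < b.val := hab
  have hs' : (σ a).val < (σ b).val := hs
  by_cases hp : b.val < p
  · apply Finset.card_le_card_of_injOn (Equiv.swap a b)
    · intro x hx
      simp only [coe_filter, Set.mem_ofPred_eq, mem_univ, true_and] at hx ⊢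
      refine ⟨?_, hx.2⟩
      by_cases h1 : x = a
      · rw [h1, Equiv.swap_apply_left]; exact hp
      · by_cases h2 : x = b
        · rw [h2, Equiv.swap_apply_right]
          omega
        · rw [Equiv.swap_apply_of_ne_of_ne h1 h2]; exact hx.1
    · exact (Equiv.injective _).injOn
  · apply Finset.card_le_card
    intro x hx
    simp only [mem_filter, mem_univ, true_and] at hx ⊢
    have hx1 := hx.1
    refine ⟨hx.1, ?_⟩
    have hx := hx.2
    have h2 : x ≠ b := by rintro rfl; exact hp hx1
    rw [Equiv.Perm.mul_apply] at hx
    by_cases h1 : x = a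
    · subst h1
      rw [Equiv.swap_apply_left] at hx
      rcases h with h | h | h | h <;> omega
    · rw [Equiv.swap_apply_of_ne_of_ne h1 h2] at hx
      exact hx

/-- the rank function after one step -/
theorem crit_succ {N : ℕ} (σ : Equiv.Perm (Fin N)) (a b : Fin N) (p q : ℕ) (hp : p ≤ b.val) :
    rnk (σ * Equiv.swap a b) p q ≤ rnk σ p q + 1 := by
  unfold rnk
  refine le_trans (card_le_card (t := insert a (univ.filter
    (fun i : Fin N => i.val < p ∧ q ≤ (σ i).val))) ?_) (card_insert_le _ _)
  intro x hx
  simp only [mem_insert, mem_filter, mem_univ, true_and] at hx ⊢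
  by_cases h1 : x = a
  · exact Or.inl h1
  · have hx1 := hx.1
    have h2 : x ≠ b := by rintro rfl; omega
    rw [Equiv.Perm.mul_apply, Equiv.swap_apply_of_ne_of_ne h1 h2] at hx
    exact Or.inr hx

theorem crit_split {N : ℕ} (σ : Equiv.Perm (Fin N)) (p q t : ℕ) (h : q ≤ t + 1) :
    rnk σ p q = rnk σ p (t + 1) +
      (univ.filter (fun i : Fin N => i.val < p ∧ q ≤ (σ i).val ∧ (σ i).val ≤ t)).card := by
  unfold rnk
  rw [← Finset.card_filter_add_card_filter_not (s := univ.filter
    (fun i : Fin N => i.val < p ∧ q ≤ (σ i).val)) (fun i => t + 1 ≤ (σ i).val)]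
  congr 1
  · congr 1
    ext x
    simp only [mem_filter, mem_univ, true_and]
    omega
  · congr 1
    ext x
    simp only [mem_filter, mem_univ, true_and]
    omega

/-- measure -/
def critMu {N : ℕ} (σ : Equiv.Perm (Fin N)) : ℕ := ∑ i : Fin N, i.val * (σ i).val

theorem critMu_lt {N : ℕ} (σ : Equiv.Perm (Fin N)) (a b : Fin N) (hab : a < b) (h : σ a < σ b) :
    critMu (σ * Equiv.swap a b) < critMu σ := by
  have hab' : a.val < b.val := hab
  have hs' : (σ a).val < (σ b).val := h
  have hba : b ∈ (univ : Finset (Fin N)).erase a := mem_erase.2 ⟨hab.ne', mem_univ _⟩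
  unfold critMu
  rw [← Finset.add_sum_erase univ _ (mem_univ a), ← Finset.add_sum_erase _ _ hba,
    ← Finset.add_sum_erase univ (fun i : Fin N => i.val * (σ i).val) (mem_univ a),
    ← Finset.add_sum_erase _ (fun i : Fin N => i.val * (σ i).val) hba]
  have e : ∑ x ∈ ((univ : Finset (Fin N)).erase a).erase b, x.val * ((σ * Equiv.swap a b) x).val =
      ∑ x ∈ ((univ : Finset (Fin N)).erase a).erase b, x.val * (σ x).val := by
    apply sum_congr rfl
    intro x hx
    rw [mem_erase, mem_erase] at hx
    rw [Equiv.Perm.mul_apply, Equiv.swap_apply_of_ne_of_ne hx.2.1 hx.1]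
  rw [e]
  simp only [Equiv.Perm.mul_apply, Equiv.swap_apply_left, Equiv.swap_apply_right]
  obtain ⟨k, hk⟩ : ∃ k, b.val = a.val + k + 1 := ⟨b.val - a.val - 1, by omega⟩
  obtain ⟨l, hl⟩ : ∃ l, (σ b).val = (σ a).val + l + 1 := ⟨(σ b).val - (σ a).val - 1, by omega⟩
  rw [hk, hl]
  have : a.val * ((σ a).val + l + 1) + (a.val + k + 1) * (σ a).val <
      a.val * (σ a).val + (a.val + k + 1) * ((σ a).val + l + 1) := by
    ring_nf
    nlinarith [Nat.zero_le (k * l)]
  omega

theorem crit_main {N : ℕ} (τ : Equiv.Perm (Fin N)) : ∀ (n : ℕ) (σ : Equiv.Perm (Fin N)),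
    critMu σ = n → (∀ p q, rnk σ p q ≤ rnk τ p q) → BLE σ τ := by
  intro n
  induction n using Nat.strong_induction_on with
  | _ n ih =>
    intro σ hn hr
    by_cases heq : σ = τ
    · subst heq; exact Relation.ReflTransGen.refl
    · -- the first difference
      have hex : {i : Fin N | σ i ≠ τ i}.Nonempty := by
        by_contra hno
        apply heq
        ext i
        by_contra h1
        exact hno ⟨i, fun h2 => h1 (by rw [h2])⟩
      obtain ⟨a, ha, hmin⟩ := (wellFounded_lt (α := Fin N)).has_min _ hex
      have hlt : ∀ i, i < a → σ i = τ i := fun i hi => by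
        by_contra h1
        exact hmin i h1 hi
      have hane : σ a ≠ τ a := ha
      have hst : σ a < τ a := by
        by_contra hno
        have h1 : τ a < σ a := lt_of_le_of_ne (not_lt.1 hno) (Ne.symm hane)
        have h2 := hr (a.val + 1) (σ a).val
        have h3 : rnk τ (a.val + 1) (σ a).val < rnk σ (a.val + 1) (σ a).val := by
          unfold rnk
          apply card_lt_card
          rw [ssubset_iff_of_subset]
          · refine ⟨a, ?_, ?_⟩
            · simp
            · simp only [mem_filter, mem_univ, true_and, not_and]
              intro _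
              have : (τ a).val < (σ a).val := h1
              omega
          · intro x hx
            simp only [mem_filter, mem_univ, true_and] at hx ⊢
            have hxa : x ≠ a := by
              rintro rfl
              have : (τ x).val < (σ x).val := h1
              omega
            have hxlt : x < a := by
              have : x.val ≠ a.val := fun h => hxa (Fin.ext h)
              show x.val < a.val
              omega
            rw [hlt x hxlt]
            exact hx
        omega
      -- the partner
      have hex2 : {i : Fin N | a < i ∧ σ a < σ i ∧ σ i ≤ τ a}.Nonempty := by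
        have hc : σ (σ.symm (τ a)) = τ a := σ.apply_symm_apply _
        refine ⟨σ.symm (τ a), ?_, by rw [hc]; exact hst, by rw [hc]⟩
        by_contra hno
        rcases (not_lt.1 hno).eq_or_lt with h1 | h1
        · rw [h1] at hc
          exact hane hc
        · have h2 := hlt _ h1
          rw [hc] at h2
          have := τ.injective h2
          rw [← this] at h1
          exact lt_irrefl _ h1
      obtain ⟨b, ⟨hab, hsb, hbt⟩, hbmin⟩ := (wellFounded_lt (α := Fin N)).has_min _ hex2
      have hr' : ∀ p q, rnk (σ * Equiv.swap a b) p q ≤ rnk τ p q := by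
        intro p q
        by_cases hout : p ≤ a.val ∨ b.val < p ∨ q ≤ (σ a).val ∨ (σ b).val < q
        · exact (crit_out σ a b hab p q hout hsb).trans (hr p q)
        · push Not at hout
          obtain ⟨o1, o2, o3, o4⟩ := hout
          have hbt' : (σ b).val ≤ (τ a).val := hbt
          refine (crit_succ σ a b p q o2).trans ?_
          rw [crit_split σ p q (τ a).val (by omega), crit_split τ p q (τ a).val (by omega)]
          have h1 := hr p ((τ a).val + 1)
          have h2 : (univ.filter (fun i : Fin N => i.val < p ∧ q ≤ (σ i).val ∧
              (σ i).val ≤ (τ a).val)).card + 1 ≤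
              (univ.filter (fun i : Fin N => i.val < p ∧ q ≤ (τ i).val ∧
              (τ i).val ≤ (τ a).val)).card := by
            have h3 : a ∉ univ.filter (fun i : Fin N => i.val < p ∧ q ≤ (σ i).val ∧
                (σ i).val ≤ (τ a).val) := by
              simp only [mem_filter, mem_univ, true_and, not_and]
              intro _ h4
              omega
            rw [← card_insert_of_notMem h3]
            apply card_le_card
            intro x hx
            rw [mem_insert] at hx
            simp only [mem_filter, mem_univ, true_and] at hx ⊢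
            rcases hx with rfl | ⟨k1, k2, k3⟩
            · refine ⟨o1, by omega, le_rfl⟩
            · have hxa : x < a := by
                by_contra hno
                rcases (not_lt.1 hno).eq_or_lt with h5 | h5
                · rw [← h5] at k2; omega
                · have h6 : σ a < σ x := by
                    show (σ a).val < (σ x).val
                    omega
                  have h7 : σ x ≤ τ a := k3
                  have h8 : x < b := by
                    show x.val < b.val
                    omega
                  exact hbmin x ⟨h5, h6, h7⟩ h8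
              rw [← hlt x hxa]
              exact ⟨k1, k2, k3⟩
          omega
      have hlt' := critMu_lt σ a b hab hsb
      have := ih _ (by rw [← hn]; exact hlt') (σ * Equiv.swap a b) rfl hr'
      exact Relation.ReflTransGen.head ⟨a, b, hab, hsb, rfl⟩ this

/-- **CRIT** the rank criterion for the strong Bruhat order -/
theorem ble_iff {N : ℕ} (σ τ : Equiv.Perm (Fin N)) :
    BLE σ τ ↔ ∀ p q, rnk σ p q ≤ rnk τ p q := by
  constructor
  · intro h p q
    induction h with
    | refl => exact le_rfl
    | tail _ hs ih =>
      obtain ⟨i, j, hij, h1, rfl⟩ := hs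
      exact ih.trans (crit_step _ i j hij h1 p q)
  · exact crit_main τ _ σ rfl

end Pool.Agent.H549R2.BR
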