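import Pool.Agent.H549R2.BR.P1
import Pool.Agent.H549R2.BR.T1

/-!
# The sizes of the lower intervals of the strong Bruhat order: membership in `#P`
-/

namespace Pool.Agent.NPC.H549BR

open Pool.Agent.H549R2.Convex Pool.Agent.H549R2.BR Pool.Agent.NPC.Cnt

/-- test of a list: values of a permutation -/
def permB (l : List ℕ) : Bool :=
  (List.range l.length).all (fun i => decide (l.getD i 0 < l.length) &&
    (List.range l.length).all (fun j => decide (i = j) || !decide (l.getD i 0 = l.getD j 0)))

/-- rank function of a list -/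
def rkL (l : List ℕ) (p q : ℕ) : ℕ :=
  ∑ i ∈ Finset.range l.length, if i < p ∧ q ≤ l.getD i 0 then 1 else 0

/-- test of a certificate -/
def certB (l c : List ℕ) : Bool :=
  (decide (c.length = l.length) && (permB l && permB c)) &&
    (List.range (l.length + 1)).all (fun p => (List.range (l.length + 1)).all (fun q =>
      decide (rkL c p q ≤ rkL l p q)))

theorem permB_iff (l : List ℕ) (N : ℕ) (hN : l.length = N) : permB l = true ↔
    ∃ w : Equiv.Perm (Fin N), ∀ i : Fin N, (w i).val = l.getD i.val 0 := by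
  subst hN
  rw [permB, List.all_eq_true]
  constructor
  · intro h
    have hall : ∀ i j : Fin l.length, l.getD i.val 0 < l.length ∧
        (i.val = j.val ∨ l.getD i.val 0 ≠ l.getD j.val 0) := by
      intro i j
      have h1 := h i.val (List.mem_range.2 i.2)
      rw [Bool.and_eq_true, List.all_eq_true] at h1
      have h2 := h1.2 j.val (List.mem_range.2 j.2)
      simp only [Bool.or_eq_true, decide_eq_true_eq, Bool.not_eq_true',
        decide_eq_false_iff_not] at h1 h2
      exact ⟨h1.1, h2⟩
    have hinj : Function.Injective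
        (fun i : Fin l.length => (⟨l.getD i.val 0, (hall i i).1⟩ : Fin l.length)) := by
      intro i j hij
      have hij' : l.getD i.val 0 = l.getD j.val 0 := congrArg Fin.val hij
      rcases (hall i j).2 with h' | h'
      · exact Fin.ext h'
      · exact absurd hij' h'
    exact ⟨Equiv.ofBijective _ (Finite.injective_iff_bijective.1 hinj), fun i => rfl⟩
  · rintro ⟨w, hw⟩ i hi
    rw [List.mem_range] at hi
    rw [Bool.and_eq_true, List.all_eq_true, decide_eq_true_eq]
    refine ⟨?_, fun j hj => ?_⟩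
    · rw [← hw ⟨i, hi⟩]
      exact (w _).2
    · rw [List.mem_range] at hj
      simp only [Bool.or_eq_true, decide_eq_true_eq, Bool.not_eq_true', decide_eq_false_iff_not]
      by_cases hij : i = j
      · exact Or.inl hij
      · refine Or.inr fun h => hij ?_
        rw [← hw ⟨i, hi⟩, ← hw ⟨j, hj⟩] at h
        exact congrArg Fin.val (w.injective (Fin.ext h))

theorem rkL_eq {N : ℕ} (l : List ℕ) (hN : l.length = N) (w : Equiv.Perm (Fin N))
    (hw : ∀ i : Fin N, (w i).val = l.getD i.val 0) (p q : ℕ) : rkL l p q = rnk w p q := by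
  subst hN
  rw [rkL, rnk, Finset.card_filter, Finset.sum_range]
  exact Finset.sum_congr rfl fun i _ => by rw [hw i]

theorem rnk_top {N : ℕ} (σ : Equiv.Perm (Fin N)) (p q : ℕ) : rnk σ p q = rnk σ (min p N) q := by
  rw [rnk, rnk]
  congr 1
  refine Finset.filter_congr fun i _ => ?_
  have := i.2
  omega

theorem rnk_big {N : ℕ} (σ : Equiv.Perm (Fin N)) (p q : ℕ) (hq : N ≤ q) : rnk σ p q = 0 := by
  rw [rnk, Finset.card_eq_zero, Finset.filter_eq_empty_iff]
  intro i _ h
  have := (σ i).2
  omega

theorem rnk_all {N : ℕ} (σ τ : Equiv.Perm (Fin N))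
    (h : ∀ p ≤ N, ∀ q ≤ N, rnk σ p q ≤ rnk τ p q) (p q : ℕ) : rnk σ p q ≤ rnk τ p q := by
  rw [rnk_top σ, rnk_top τ]
  rcases Nat.lt_or_ge q N with hq | hq
  · exact h _ (Nat.min_le_right _ _) q hq.le
  · rw [rnk_big _ _ _ hq]
    exact Nat.zero_le _

theorem certB_iff (l c : List ℕ) : certB l c = true ↔
    ∃ _ : c.length = l.length, ∃ σ w : Equiv.Perm (Fin l.length),
      (∀ i : Fin l.length, (σ i).val = c.getD i.val 0) ∧
      (∀ i : Fin l.length, (w i).val = l.getD i.val 0) ∧ BLE σ w := by
  rw [certB, Bool.and_eq_true, Bool.and_eq_true, Bool.and_eq_true, decide_eq_true_eq]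
  constructor
  · rintro ⟨⟨hlen, hl, hc⟩, h⟩
    obtain ⟨w, hw⟩ := (permB_iff l _ rfl).1 hl
    obtain ⟨σ, hσ⟩ := (permB_iff c _ hlen).1 hc
    refine ⟨hlen, σ, w, hσ, hw, (ble_iff σ w).2 (rnk_all σ w fun p hp q hq => ?_)⟩
    rw [List.all_eq_true] at h
    have h1 := h p (List.mem_range.2 (by omega))
    rw [List.all_eq_true] at h1
    have h2 := h1 q (List.mem_range.2 (by omega))
    rw [decide_eq_true_eq, rkL_eq l rfl w hw, rkL_eq c hlen σ hσ] at h2
    exact h2
  · rintro ⟨hlen, σ, w, hσ, hw, hb⟩
    refine ⟨⟨hlen, (permB_iff l _ rfl).2 ⟨w, hw⟩, (permB_iff c _ hlen).2 ⟨σ, hσ⟩⟩, ?_⟩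
    rw [List.all_eq_true]
    intro p _
    rw [List.all_eq_true]
    intro q _
    rw [decide_eq_true_eq, rkL_eq l rfl w hw, rkL_eq c hlen σ hσ]
    exact (ble_iff σ w).1 hb p q

theorem card_certB (l : List ℕ) : Nat.card {c : List ℕ // certB l c = true} = below l := by
  rw [below]
  symm
  have hmem : ∀ i : Fin l.length, l.get i = l.getD i.val 0 := fun i => by
    rw [List.getD_eq_getElem _ _ i.2, List.get_eq_getElem]
  refine Nat.card_congr (Equiv.ofBijective
    (fun f => (⟨List.ofFn (fun i => (f.1 i).val), ?_⟩ : {c : List ℕ // certB l c = true}))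
      ⟨?_, ?_⟩)
  · obtain ⟨σ, w, hw, hb⟩ := f
    rw [certB_iff]
    refine ⟨List.length_ofFn, σ, w, fun i => ?_, fun i => ?_, hb⟩
    · rw [List.getD_eq_getElem _ _ (by simp), List.getElem_ofFn]
    · rw [hw, hmem]
  · intro f g h
    apply Subtype.ext
    have h1 := congrArg Subtype.val h
    simp only at h1
    have h2 := List.ofFn_injective h1
    ext i
    exact congrFun h2 i
  · rintro ⟨c, hc⟩
    obtain ⟨hlen, σ, w, hσ, hw, hb⟩ := (certB_iff l c).1 hc
    refine ⟨⟨σ, w, fun i => by rw [hw, hmem], hb⟩, ?_⟩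
    apply Subtype.ext
    simp only
    apply List.ext_getElem
    · rw [List.length_ofFn, hlen]
    · intro i h1 h2
      rw [List.getElem_ofFn, hσ, List.getD_eq_getElem _ _ h2]

theorem prkL {α : Type} [TEnc α] {l : α → List ℕ} {p q : α → ℕ} (hl : Poly l) (hp : Poly p)
    (hq : Poly q) : Poly (fun a => rkL (l a) (p a) (q a)) := by
  refine psum (f := fun a i => if i < p a ∧ q a ≤ (l a).getD i 0 then 1 else 0)
    (UPoly.length hl) ?_
  exact Poly.ite (Poly.decide_and (Poly.decide_lt (Poly.snd Poly.id) (hp.comp (Poly.fst Poly.id)))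
    (Poly.decide_le (hq.comp (Poly.fst Poly.id)) (Poly.getD (hl.comp (Poly.fst Poly.id))
      (Poly.snd Poly.id) (Poly.const 0)))) (Poly.const 1) (Poly.const 0)

theorem ppermB {α : Type} [TEnc α] {l : α → List ℕ} (hl : Poly l) :
    Poly (fun a => permB (l a)) := by
  refine Poly.all (p := fun (a : α) i => decide ((l a).getD i 0 < (l a).length) &&
    (List.range (l a).length).all (fun j => decide (i = j) ||
      !decide ((l a).getD i 0 = (l a).getD j 0))) (Poly.range_length hl) ?_
  have hl' : Poly (fun p : α × ℕ => l p.1) := hl.comp (Poly.fst Poly.id)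
  refine Poly.and (Poly.decide_lt (Poly.getD hl' (Poly.snd Poly.id) (Poly.const 0))
    (Poly.length hl')) ?_
  refine Poly.all (p := fun (a : α × ℕ) j => decide (a.2 = j) ||
    !decide ((l a.1).getD a.2 0 = (l a.1).getD j 0)) (Poly.range_length hl') ?_
  have hl'' : Poly (fun p : (α × ℕ) × ℕ => l p.1.1) := hl.comp (Poly.fst (Poly.fst Poly.id))
  exact Poly.or (Poly.decide_eq (Poly.snd (Poly.fst Poly.id)) (Poly.snd Poly.id))
    (Poly.not (Poly.decide_eq (Poly.getD hl'' (Poly.snd (Poly.fst Poly.id)) (Poly.const 0))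
      (Poly.getD hl'' (Poly.snd Poly.id) (Poly.const 0))))

theorem pcertB : Poly (fun x : List ℕ × List ℕ => certB x.1 x.2) := by
  refine Poly.and (Poly.and (Poly.decide_eq (Poly.length (Poly.snd Poly.id))
    (Poly.length (Poly.fst Poly.id))) (Poly.and (ppermB (Poly.fst Poly.id))
      (ppermB (Poly.snd Poly.id)))) ?_
  refine Poly.all (p := fun (x : List ℕ × List ℕ) p => (List.range (x.1.length + 1)).all (fun q =>
    decide (rkL x.2 p q ≤ rkL x.1 p q))) (UPoly.add (UPoly.length (Poly.fst Poly.id))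
      (UPoly.const 1)).range ?_
  refine Poly.all (p := fun (x : (List ℕ × List ℕ) × ℕ) q =>
    decide (rkL x.1.2 x.2 q ≤ rkL x.1.1 x.2 q)) (UPoly.add (UPoly.length (Poly.fst
      (Poly.fst Poly.id))) (UPoly.const 1)).range ?_
  exact Poly.decide_le (prkL (Poly.snd (Poly.fst (Poly.fst Poly.id))) (Poly.snd (Poly.fst Poly.id))
    (Poly.snd Poly.id)) (prkL (Poly.fst (Poly.fst (Poly.fst Poly.id)))
      (Poly.snd (Poly.fst Poly.id)) (Poly.snd Poly.id))

theorem sharpP_below : SharpP (strFn below) := by
  have h := sharpP_typed certB pcertB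
    (Polynomial.X * (Polynomial.C 4 * Polynomial.X + Polynomial.C 2) + Polynomial.C 1) ?_
  · have e : (fun l : List ℕ => Nat.card {w : List ℕ // certB l w = true}) = below :=
      funext card_certB
    rw [e] at h
    exact h
  · intro l w hc
    obtain ⟨hlen, σ, _, hσ, _, _⟩ := (certB_iff l w).1 hc
    have h1 : ∀ a ∈ w, sz a ≤ 4 * l.length + 1 := by
      intro a ha
      obtain ⟨i, hi, rfl⟩ := List.mem_iff_getElem.1 ha
      have h2 : w[i] < l.length := by
        have := hσ ⟨i, by omega⟩
        rw [List.getD_eq_getElem _ _ hi] at this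
        rw [← this]
        exact (σ _).2
      have h3 := sz_nat_le w[i]
      have h4 : (w[i]).size ≤ w[i] := Nat.size_le.2 Nat.lt_two_pow_self
      omega
    have h2 := sz_le_length_mul w _ h1
    have h3 := length_lt_sz l
    simp only [Polynomial.eval_add, Polynomial.eval_mul, Polynomial.eval_X, Polynomial.eval_C]
    have h4 : w.length * (4 * l.length + 1 + 1) ≤ sz l * (4 * sz l + 2) :=
      Nat.mul_le_mul (by omega) (by omega)
    omega

theorem below_size (l : List ℕ) : (below l).size ≤ l.length * l.length + 1 := by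
  have h1 : below l ≤ l.length ^ l.length := by
    rw [below]
    have h2 : Nat.card {σ : Equiv.Perm (Fin l.length) // ∃ w : Equiv.Perm (Fin l.length),
        (∀ i : Fin l.length, (w i).val = l.get i) ∧ BLE σ w} ≤
        Nat.card (Equiv.Perm (Fin l.length)) :=
      Nat.card_le_card_of_injective _ Subtype.val_injective
    rw [Nat.card_eq_fintype_card (α := Equiv.Perm (Fin l.length)), Fintype.card_perm,
      Fintype.card_fin] at h2
    exact h2.trans (Nat.factorial_le_pow _)
  have h3 : l.length ^ l.length ≤ (2 ^ l.length) ^ l.length :=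
    Nat.pow_le_pow_left (Nat.lt_two_pow_self).le _
  rw [← pow_mul] at h3
  have h4 : 2 ^ (l.length * l.length) < 2 ^ (l.length * l.length + 1) :=
    Nat.pow_lt_pow_right (by norm_num) (by omega)
  rw [Nat.size_le]
  omega

theorem below_bound (l : List ℕ) :
    (below l).size ≤ (Polynomial.X * Polynomial.X + Polynomial.C 1 : Polynomial ℕ).eval (sz l) := by
  have h1 := below_size l
  have h2 := length_lt_sz l
  simp only [Polynomial.eval_add, Polynomial.eval_mul, Polynomial.eval_X, Polynomial.eval_C]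
  have := Nat.mul_le_mul h2.le h2.le
  omega

end Pool.Agent.NPC.H549BR
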