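import Pool.Agent.H549R2.BR.Defs

namespace Pool.Agent.H549R2.BR

open Finset

namespace Blk

variable {N : ℕ}

theorem split_col (σ : Equiv.Perm (Fin N)) (p q r : ℕ) (hqr : q ≤ r) :
    rnk σ p q = rnk σ p r +
      (univ.filter (fun i : Fin N => i.val < p ∧ q ≤ (σ i).val ∧ (σ i).val < r)).card := by
  unfold rnk
  rw [← card_union_of_disjoint]
  · congr 1
    ext i
    simp only [mem_filter, mem_univ, true_and, mem_union]
    omega
  · rw [disjoint_filter]
    intro i _ h1 h2
    omega

theorem split_row (σ : Equiv.Perm (Fin N)) (p r q : ℕ) (hrp : r ≤ p) :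
    rnk σ p q = rnk σ r q +
      (univ.filter (fun i : Fin N => i.val < p ∧ r ≤ i.val ∧ q ≤ (σ i).val)).card := by
  unfold rnk
  rw [← card_union_of_disjoint]
  · congr 1
    ext i
    simp only [mem_filter, mem_univ, true_and, mem_union]
    omega
  · rw [disjoint_filter]
    intro i _ h1 h2
    omega

theorem card_perm (σ : Equiv.Perm (Fin N)) (q r : ℕ) :
    (univ.filter (fun i : Fin N => q ≤ (σ i).val ∧ (σ i).val < r)).card =
      (univ.filter (fun i : Fin N => q ≤ i.val ∧ i.val < r)).card := by
  refine card_bij (fun i _ => σ i) ?_ ?_ ?_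
  · intro i hi
    simp only [mem_filter, mem_univ, true_and] at hi ⊢
    exact hi
  · intro i _ j _ h
    exact σ.injective h
  · intro j hj
    refine ⟨σ.symm j, ?_, by simp⟩
    simp only [mem_filter, mem_univ, true_and, Equiv.apply_symm_apply] at hj ⊢
    exact hj

/-- comparison on the columns -/
theorem cols {n m : ℕ} (w σ : Equiv.Perm (Fin (n * m)))
    (h4 : ∀ i j : Fin (n * m), w i < w j → (w i).val / m = (w j).val / m → j < i) (p : ℕ)
    (h : ∀ Q, Q ≤ n → rnk σ p (Q * m) ≤ rnk w p (Q * m)) (q : ℕ) : rnk σ p q ≤ rnk w p q := by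
  rcases Nat.eq_zero_or_pos m with hm | hm
  · subst hm
    have : rnk σ p q = 0 := by
      unfold rnk
      rw [card_eq_zero, filter_eq_empty_iff]
      intro i _
      exact absurd i.isLt (by simp)
    omega
  rcases Nat.lt_or_ge q (n * m) with hq | hq
  · have hl : q / m < n := Nat.div_lt_of_lt_mul (by rwa [Nat.mul_comm])
    have hl1 : q / m * m ≤ q := Nat.div_mul_le_self q m
    have hl2 : q < (q / m + 1) * m := by
      have := Nat.lt_div_mul_add (a := q) hm
      linarith
    by_cases hc : ∃ i : Fin (n * m), i.val < p ∧ q / m * m ≤ (w i).val ∧ (w i).val < q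
    · obtain ⟨i, hi1, hi2, hi3⟩ := hc
      have h1 := h (q / m + 1) (by omega)
      rw [split_col σ p q _ hl2.le, split_col w p q _ hl2.le]
      refine Nat.add_le_add h1 ?_
      have h2 : (univ.filter (fun i : Fin (n * m) =>
          i.val < p ∧ q ≤ (w i).val ∧ (w i).val < (q / m + 1) * m)) =
          univ.filter (fun i : Fin (n * m) => q ≤ (w i).val ∧ (w i).val < (q / m + 1) * m) := by
        ext j
        simp only [mem_filter, mem_univ, true_and]
        refine ⟨fun hj => hj.2, fun hj => ⟨?_, hj⟩⟩
        have h3 : (w i).val / m = q / m := by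
          apply le_antisymm
          · exact Nat.div_le_div_right hi3.le
          · exact (Nat.le_div_iff_mul_le hm).2 hi2
        have h5 : (w j).val / m = q / m := by
          apply le_antisymm
          · exact Nat.lt_succ_iff.1 (Nat.div_lt_of_lt_mul (lt_of_lt_of_eq hj.2 (Nat.mul_comm _ _)))
          · exact Nat.div_le_div_right hj.1
        have h6 := h4 i j (by rw [Fin.lt_def]; omega) (h3.trans h5.symm)
        rw [Fin.lt_def] at h6
        omega
      rw [h2, card_perm, ← card_perm σ]
      apply card_le_card
      intro j hj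
      simp only [mem_filter, mem_univ, true_and] at hj ⊢
      exact hj.2
    · push Not at hc
      have h1 := h (q / m) hl.le
      have h2 : rnk w p (q / m * m) = rnk w p q := by
        rw [split_col w p _ _ hl1]
        have : (univ.filter (fun i : Fin (n * m) =>
          i.val < p ∧ q / m * m ≤ (w i).val ∧ (w i).val < q)) = ∅ := by
          rw [filter_eq_empty_iff]
          intro i _ hi
          have := hc i hi.1 hi.2.1
          omega
        rw [this, card_empty, add_zero]
      have h3 : rnk σ p q ≤ rnk σ p (q / m * m) := by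
        rw [split_col σ p _ _ hl1]
        exact Nat.le_add_right _ _
      omega
  · have : rnk σ p q = 0 := by
      unfold rnk
      rw [card_eq_zero, filter_eq_empty_iff]
      intro i _ hi
      have := (σ i).isLt
      omega
    omega

/-- comparison on the rows -/
theorem rows {n m : ℕ} (w σ : Equiv.Perm (Fin (n * m)))
    (h3 : ∀ i j : Fin (n * m), i < j → i.val / m = j.val / m → w j < w i) (q : ℕ)
    (h : ∀ P, P ≤ n → rnk σ (P * m) q ≤ rnk w (P * m) q) (p : ℕ) : rnk σ p q ≤ rnk w p q := by
  rcases Nat.eq_zero_or_pos m with hm | hm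
  · subst hm
    have : rnk σ p q = 0 := by
      unfold rnk
      rw [card_eq_zero, filter_eq_empty_iff]
      intro i _
      exact absurd i.isLt (by simp)
    omega
  rcases Nat.lt_or_ge p (n * m) with hp | hp
  · have hl : p / m < n := Nat.div_lt_of_lt_mul (by rwa [Nat.mul_comm])
    have hl1 : p / m * m ≤ p := Nat.div_mul_le_self p m
    have hl2 : p < (p / m + 1) * m := by
      have := Nat.lt_div_mul_add (a := p) hm
      linarith
    by_cases hc : ∃ i : Fin (n * m), p ≤ i.val ∧ i.val < (p / m + 1) * m ∧ q ≤ (w i).val
    · obtain ⟨i, hi1, hi2, hi3⟩ := hc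
      have h1 := h (p / m) hl.le
      rw [split_row σ p _ q hl1, split_row w p _ q hl1]
      refine Nat.add_le_add h1 ?_
      apply card_le_card
      intro j hj
      simp only [mem_filter, mem_univ, true_and] at hj ⊢
      refine ⟨hj.1, hj.2.1, ?_⟩
      have h4 : i.val / m = p / m := by
        apply le_antisymm
        · exact Nat.lt_succ_iff.1 (Nat.div_lt_of_lt_mul (lt_of_lt_of_eq hi2 (Nat.mul_comm _ _)))
        · exact Nat.div_le_div_right hi1
      have h5 : j.val / m = p / m := by
        apply le_antisymm
        · exact Nat.div_le_div_right hj.1.le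
        · exact (Nat.le_div_iff_mul_le hm).2 hj.2.1
      have h6 := h3 j i (by rw [Fin.lt_def]; omega) (h5.trans h4.symm)
      rw [Fin.lt_def] at h6
      omega
    · push Not at hc
      have h1 := h (p / m + 1) (by omega)
      have h2 : rnk w ((p / m + 1) * m) q = rnk w p q := by
        rw [split_row w _ _ q hl2.le]
        have : (univ.filter (fun i : Fin (n * m) =>
          i.val < (p / m + 1) * m ∧ p ≤ i.val ∧ q ≤ (w i).val)) = ∅ := by
          rw [filter_eq_empty_iff]
          intro i _ hi
          have := hc i hi.2.1 hi.1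
          omega
        rw [this, card_empty, add_zero]
      have h4 : rnk σ p q ≤ rnk σ ((p / m + 1) * m) q := by
        rw [split_row σ _ _ q hl2.le]
        exact Nat.le_add_right _ _
      omega
  · have h1 := h n le_rfl
    have h2 : ∀ τ : Equiv.Perm (Fin (n * m)), rnk τ p q = rnk τ (n * m) q := by
      intro τ
      unfold rnk
      congr 1
      ext i
      simp only [mem_filter, mem_univ, true_and]
      have := i.isLt
      omega
    rw [h2, h2]
    exact h1

end Blk

/-- **BLK** comparison at the block boundaries suffices -/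
theorem block_le {n m : ℕ} (w σ : Equiv.Perm (Fin (n * m)))
    (h3 : ∀ i j : Fin (n * m), i < j → i.val / m = j.val / m → w j < w i)
    (h4 : ∀ i j : Fin (n * m), w i < w j → (w i).val / m = (w j).val / m → j < i)
    (h : ∀ P Q, P ≤ n → Q ≤ n → rnk σ (P * m) (Q * m) ≤ rnk w (P * m) (Q * m)) :
    ∀ p q, rnk σ p q ≤ rnk w p q := by
  intro p q
  refine Blk.rows w σ h3 q (fun P hP => ?_) p
  exact Blk.cols w σ h4 (P * m) (fun Q hQ => h P Q hP hQ) q

end Pool.Agent.H549R2.BR
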