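import Pool.Agent.H549R2.BR.Defs

namespace Pool.Agent.H549R2.BR

open Finset

theorem t5_tR_step (X : ℕ → ℕ → ℕ) (n k : ℕ) {l l' : ℕ} (hl : l < l') (hl' : l' < n) :
    tR X n k l' + X k l' ≤ tR X n k l := by
  have h1 : X k l' = ∑ l'' ∈ range n, if l'' = l' then X k l'' else 0 := by
    rw [Finset.sum_ite_eq']
    simp [hl']
  unfold tR
  rw [h1, ← sum_add_distrib]
  apply sum_le_sum
  intro i _
  split_ifs <;> omega

theorem t5_tR_le (X : ℕ → ℕ → ℕ) (n k : ℕ) {l : ℕ} (hl : l < n) :
    tR X n k l + X k l ≤ ∑ l' ∈ range n, X k l' := by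
  have h1 : X k l = ∑ l'' ∈ range n, if l'' = l then X k l'' else 0 := by
    rw [Finset.sum_ite_eq']
    simp [hl]
  unfold tR
  rw [h1, ← sum_add_distrib]
  apply sum_le_sum
  intro i _
  split_ifs <;> omega

theorem t5_uC_step (X : ℕ → ℕ → ℕ) (n l : ℕ) {k k' : ℕ} (hk : k < k') (hk' : k' < n) :
    uC X n k l + X k l ≤ uC X n k' l := by
  have h1 : X k l = ∑ k'' ∈ range n, if k'' = k then X k'' l else 0 := by
    rw [Finset.sum_ite_eq']
    simp [lt_trans hk hk']
  unfold uC
  rw [h1, ← sum_add_distrib]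
  apply sum_le_sum
  intro i _
  split_ifs <;> omega

theorem t5_uC_le (X : ℕ → ℕ → ℕ) (n l : ℕ) {k : ℕ} (hk : k < n) :
    uC X n k l + X k l ≤ ∑ k' ∈ range n, X k' l := by
  have h1 : X k l = ∑ k'' ∈ range n, if k'' = k then X k'' l else 0 := by
    rw [Finset.sum_ite_eq']
    simp [hk]
  unfold uC
  rw [h1, ← sum_add_distrib]
  apply sum_le_sum
  intro i _
  split_ifs <;> omega

theorem t5_exists_l (X : ℕ → ℕ → ℕ) (n k b : ℕ) (hb : b < ∑ l ∈ range n, X k l) :
    ∃ l < n, tR X n k l ≤ b ∧ b < tR X n k l + X k l := by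
  classical
  let f : ℕ → ℕ := fun j => ∑ l' ∈ range n, if j ≤ l' then X k l' else 0
  have hfn : f n ≤ b := by
    have : f n = 0 := by
      apply sum_eq_zero
      intro i hi
      rw [mem_range] at hi
      rw [if_neg (by omega)]
    omega
  have hex : ∃ j, f j ≤ b := ⟨n, hfn⟩
  have hf0 : ¬ f 0 ≤ b := by
    have : f 0 = ∑ l ∈ range n, X k l := by
      apply sum_congr rfl
      intro i _
      rw [if_pos (Nat.zero_le _)]
    omega
  obtain ⟨j, hj⟩ : ∃ j, Nat.find hex = j := ⟨_, rfl⟩
  have hj1 : f j ≤ b := by rw [← hj]; exact Nat.find_spec hex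
  have hj2 : ∀ i < j, ¬ f i ≤ b := by
    intro i hi
    rw [← hj] at hi
    exact Nat.find_min hex hi
  have hj3 : j ≤ n := by rw [← hj]; exact Nat.find_min' hex hfn
  rcases j with _ | l
  · exact absurd hj1 hf0
  · refine ⟨l, by omega, ?_, ?_⟩
    · have : tR X n k l = f (l + 1) := rfl
      rw [this]; exact hj1
    · have h1 : f l = tR X n k l + X k l := by
        have h2 : X k l = ∑ l'' ∈ range n, if l'' = l then X k l'' else 0 := by
          rw [Finset.sum_ite_eq']
          simp [show l < n by omega]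
        unfold tR
        rw [h2, ← sum_add_distrib]
        apply sum_congr rfl
        intro i _
        split_ifs <;> omega
      have := hj2 l (by omega)
      omega

/-- **EXI** the explicit permutation with a given block matrix -/
theorem exists_w {n m : ℕ} (X : ℕ → ℕ → ℕ) (hr : ∀ k < n, ∑ l ∈ range n, X k l = m)
    (hc : ∀ l < n, ∑ k ∈ range n, X k l = m) :
    ∃ w : Equiv.Perm (Fin (n * m)), (∀ p, (w p).val = wV X n m p.val) ∧
      (∀ i j : Fin (n * m), i < j → i.val / m = j.val / m → w j < w i) ∧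
      (∀ i j : Fin (n * m), w i < w j → (w i).val / m = (w j).val / m → j < i) ∧
      ∀ k l : Fin n, bm w k l = X k.val l.val := by
  classical
  -- basic facts
  have hm : ∀ p, p < n * m → 0 < m := by
    intro p hp
    rcases Nat.eq_zero_or_pos m with h | h
    · subst h; simp at hp
    · exact h
  have hdiv : ∀ p, p < n * m → p / m < n := by
    intro p hp
    exact Nat.div_lt_of_lt_mul (by rw [Nat.mul_comm]; exact hp)
  have hmod : ∀ p, p < n * m → p % m < m := fun p hp => Nat.mod_lt _ (hm p hp)
  have hsame : ∀ p p', p / m = p' / m → p % m = p' % m → p = p' := by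
    intro p p' h1 h2
    rw [← Nat.div_add_mod p m, ← Nat.div_add_mod p' m, h1, h2]
  have hlt : ∀ p p', p / m = p' / m → (p < p' ↔ p % m < p' % m) := by
    intro p p' h1
    have e1 := Nat.div_add_mod p m
    have e2 := Nat.div_add_mod p' m
    rw [h1] at e1
    omega
  have hlt2 : ∀ p p', 0 < m → p / m < p' / m → p < p' := by
    intro p p' h0 h1
    by_contra h2
    exact absurd (Nat.div_le_div_right (c := m) (not_lt.mp h2)) (not_le.mpr h1)
  -- column fact
  have hcol : ∀ p q, p < n * m → q < n * m → wB X n m p q →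
      uC X n (p / m) (q / m) ≤ m - 1 - q % m ∧
      m - 1 - q % m < uC X n (p / m) (q / m) + X (p / m) (q / m) := by
    intro p q hp hq h
    obtain ⟨h1, h2, h3⟩ := h
    omega
  -- existence
  have hA : ∀ p, p < n * m → ∃ q, q < n * m ∧ wB X n m p q := by
    intro p hp
    obtain ⟨l, hl, h1, h2⟩ := t5_exists_l X n (p / m) (p % m) (by rw [hr _ (hdiv p hp)]; exact hmod p hp)
    have h3 := t5_uC_le X n l (hdiv p hp)
    rw [hc l hl] at h3
    set c := uC X n (p / m) l + (p % m - tR X n (p / m) l) with hcdef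
    have hcm : c < m := by omega
    have h0 : 0 < m := hm p hp
    have e1 : (l * m + (m - 1 - c)) / m = l := by
      rw [Nat.mul_comm, Nat.mul_add_div h0, Nat.div_eq_of_lt (by omega)]
      omega
    have e2 : (l * m + (m - 1 - c)) % m = m - 1 - c := by
      rw [Nat.mul_comm, Nat.mul_add_mod, Nat.mod_eq_of_lt (by omega)]
    refine ⟨l * m + (m - 1 - c), ?_, ?_⟩
    · have : (l + 1) * m ≤ n * m := Nat.mul_le_mul_right m hl
      rw [Nat.add_mul] at this
      omega
    · unfold wB
      rw [e1, e2]
      refine ⟨h1, h2, ?_⟩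
      omega
  -- uniqueness of l
  have hL : ∀ p q q', p < n * m → q < n * m → q' < n * m → ∀ p', p' < n * m → p / m = p' / m →
      p % m ≤ p' % m → wB X n m p q → wB X n m p' q' → q' / m ≤ q / m := by
    intro p q q' hp hq hq' p' hp' hpp hle h1 h2
    by_contra hcon
    push Not at hcon
    have h3 := t5_tR_step X n (p / m) hcon (hdiv q' hq')
    obtain ⟨h4, _, _⟩ := h1
    obtain ⟨_, h5, _⟩ := h2
    rw [← hpp] at h5
    omega
  have hK : ∀ p q p' q', p < n * m → q < n * m → q' < n * m → p' < n * m → q / m = q' / m →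
      q % m ≤ q' % m → wB X n m p q → wB X n m p' q' → p' / m ≤ p / m := by
    intro p q p' q' hp hq hq' hp' hqq hle h1 h2
    by_contra hcon
    push Not at hcon
    have h3 := t5_uC_step X n (q / m) hcon (hdiv p' hp')
    have h4 := hcol p q hp hq h1
    have h5 := hcol p' q' hp' hq' h2
    rw [← hqq] at h5
    omega
  have hB : ∀ p q q', p < n * m → q < n * m → q' < n * m → wB X n m p q → wB X n m p q' →
      q = q' := by
    intro p q q' hp hq hq' h1 h2
    have e1 : q / m = q' / m := le_antisymm
      (hL p q' q hp hq' hq p hp rfl le_rfl h2 h1) (hL p q q' hp hq hq' p hp rfl le_rfl h1 h2)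
    apply hsame _ _ e1
    obtain ⟨_, _, h3⟩ := h1
    obtain ⟨_, _, h4⟩ := h2
    rw [← e1] at h4
    have := hmod q hq
    have := hmod q' hq'
    omega
  have hC : ∀ p p' q, p < n * m → p' < n * m → q < n * m → wB X n m p q → wB X n m p' q →
      p = p' := by
    intro p p' q hp hp' hq h1 h2
    have e1 : p / m = p' / m := le_antisymm
      (hK p' q p q hp' hq hq hp rfl le_rfl h2 h1) (hK p q p' q hp hq hq hp' rfl le_rfl h1 h2)
    apply hsame _ _ e1
    obtain ⟨_, _, h3⟩ := h1
    obtain ⟨_, _, h4⟩ := h2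
    rw [← e1] at h4
    omega
  choose! f hf1 hf2 using hA
  let F : Fin (n * m) → Fin (n * m) := fun p => ⟨f p.val, hf1 p.val p.isLt⟩
  have hFinj : Function.Injective F := by
    intro p p' h
    have h1 : f p.val = f p'.val := congrArg Fin.val h
    apply Fin.ext
    refine hC p.val p'.val (f p.val) p.isLt p'.isLt (hf1 _ p.isLt) (hf2 _ p.isLt) ?_
    rw [h1]; exact hf2 _ p'.isLt
  have hFbij : Function.Bijective F := Finite.injective_iff_bijective.mp hFinj
  let w : Equiv.Perm (Fin (n * m)) := Equiv.ofBijective F hFbij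
  have hw : ∀ p, (w p).val = f p.val := fun p => rfl
  have hwB : ∀ p : Fin (n * m), wB X n m p.val (w p).val := fun p => hf2 _ p.isLt
  refine ⟨w, ?_, ?_, ?_, ?_⟩
  · intro p
    unfold wV
    rw [sum_eq_single (w p).val]
    · rw [if_pos (hwB p)]
    · intro q hq hne
      rw [mem_range] at hq
      rw [if_neg]
      intro h
      exact hne (hB p.val q (w p).val p.isLt hq (w p).isLt h (hwB p))
    · intro h
      exact absurd (mem_range.mpr (w p).isLt) h
  · intro i j hij he
    have h0 : 0 < m := hm _ i.isLt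
    have h1 := (hlt i.val j.val he).mp hij
    have h2 := hL i.val (w i).val (w j).val i.isLt (w i).isLt (w j).isLt j.val j.isLt he
      (le_of_lt h1) (hwB i) (hwB j)
    rcases lt_or_eq_of_le h2 with h3 | h3
    · exact hlt2 _ _ h0 h3
    · apply (hlt (w j).val (w i).val h3).mpr
      obtain ⟨_, _, h4⟩ := hwB i
      obtain ⟨_, _, h5⟩ := hwB j
      rw [← he, h3] at h5
      have := hmod _ (w i).isLt
      have := hmod _ (w j).isLt
      omega
  · intro i j hij he
    have h0 : 0 < m := hm _ i.isLt
    have h1 := (hlt (w i).val (w j).val he).mp hij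
    have h2 := hK i.val (w i).val j.val (w j).val i.isLt (w i).isLt (w j).isLt j.isLt he
      (le_of_lt h1) (hwB i) (hwB j)
    rcases lt_or_eq_of_le h2 with h3 | h3
    · exact hlt2 _ _ h0 h3
    · apply (hlt j.val i.val h3).mpr
      obtain ⟨_, _, h4⟩ := hwB i
      obtain ⟨_, _, h5⟩ := hwB j
      rw [h3, ← he] at h5
      have := hmod _ (w i).isLt
      have := hmod _ (w j).isLt
      omega
  · intro k l
    have hle := t5_tR_le X n k.val l.isLt
    rw [hr _ k.isLt] at hle
    unfold bm
    have hcard : X k.val l.val =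
        (Finset.Ico (tR X n k.val l.val) (tR X n k.val l.val + X k.val l.val)).card := by
      rw [Nat.card_Ico]; omega
    rw [hcard]
    apply Finset.card_bij (fun (p : Fin (n * m)) _ => p.val % m)
    · intro p hp
      rw [mem_filter] at hp
      obtain ⟨_, h1, h2⟩ := hp
      obtain ⟨h3, h4, _⟩ := hwB p
      rw [h1, h2] at h3 h4
      rw [mem_Ico]
      exact ⟨h3, h4⟩
    · intro p hp p' hp' h
      rw [mem_filter] at hp hp'
      exact Fin.ext (hsame _ _ (hp.2.1.trans hp'.2.1.symm) h)
    · intro b hb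
      rw [mem_Ico] at hb
      have hbm : b < m := by omega
      have h0 : 0 < m := by omega
      have hpn : k.val * m + b < n * m := by
        have : (k.val + 1) * m ≤ n * m := Nat.mul_le_mul_right m k.isLt
        rw [Nat.add_mul] at this
        omega
      have e1 : (k.val * m + b) / m = k.val := by
        rw [Nat.mul_comm, Nat.mul_add_div h0, Nat.div_eq_of_lt hbm]
        omega
      have e2 : (k.val * m + b) % m = b := by
        rw [Nat.mul_comm, Nat.mul_add_mod, Nat.mod_eq_of_lt hbm]
      refine ⟨⟨k.val * m + b, hpn⟩, ?_, e2⟩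
      rw [mem_filter]
      refine ⟨mem_univ _, e1, ?_⟩
      obtain ⟨h3, h4, _⟩ := hwB ⟨k.val * m + b, hpn⟩
      simp only [e1, e2] at h3 h4
      set l' := (w ⟨k.val * m + b, hpn⟩).val / m with hl'
      have hl'n : l' < n := hdiv _ (w ⟨k.val * m + b, hpn⟩).isLt
      rcases lt_trichotomy l' l.val with h | h | h
      · have := t5_tR_step X n k.val h l.isLt
        omega
      · exact h
      · have := t5_tR_step X n k.val h hl'n
        omega

end Pool.Agent.H549R2.BR
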