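import Pool.Agent.H549R2.BR.Defs

namespace Pool.Agent.H549R2.BR

open Finset Pool.Agent.H549R2.Convex

/-- indicator -/
def uu (A : List (List Bool)) (i j : ℕ) : ℕ := if use A i j = true then 1 else 0

theorem cN_eq (A : List (List Bool)) (t : ℕ) :
    cN A t = ∑ i ∈ range A.length, ∑ j ∈ range A.length, (if i ≤ t ∧ t < j then uu A i j else 0) := by
  unfold cN uu
  refine sum_congr rfl fun i _ => sum_congr rfl fun j _ => ?_
  by_cases h1 : i ≤ t ∧ t < j
  · by_cases h2 : use A i j = true
    · simp [h1, h2]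
    · simp [h2]
  · rw [if_neg h1, if_neg (fun h => h1 ⟨h.1, h.2.1⟩)]

theorem cS_eq (A : List (List Bool)) (t : ℕ) :
    cS A t = ∑ i ∈ range A.length, ∑ j ∈ range A.length, (if j ≤ t ∧ t < i then uu A i j else 0) := by
  unfold cS uu
  refine sum_congr rfl fun i _ => sum_congr rfl fun j _ => ?_
  by_cases h1 : j ≤ t ∧ t < i
  · by_cases h2 : use A i j = true
    · simp [h1, h2]
    · simp [h2]
  · rw [if_neg h1, if_neg (fun h => h1 ⟨h.1, h.2.1⟩)]

theorem cN_zero (A : List (List Bool)) (t : ℕ) (ht : A.length ≤ t + 1) : cN A t = 0 := by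
  rw [cN_eq]
  refine sum_eq_zero fun i _ => sum_eq_zero fun j hj => ?_
  rw [mem_range] at hj
  rw [if_neg (by omega)]

theorem cS_zero (A : List (List Bool)) (t : ℕ) (ht : A.length ≤ t + 1) : cS A t = 0 := by
  rw [cS_eq]
  refine sum_eq_zero fun i hi => sum_eq_zero fun j _ => ?_
  rw [mem_range] at hi
  rw [if_neg (by omega)]

/-- the column sum -/
theorem col_sum (A : List (List Bool)) (l : ℕ) (hl : l < A.length) :
    ∑ k ∈ range A.length, yA A k l = ∑ i ∈ range A.length, ∑ j ∈ range A.length,
      ((if j = l ∧ i ≠ l then uu A i j else 0) + (if i ≤ l ∧ l < j then uu A i j else 0) +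
        (if j < l ∧ l ≤ i then uu A i j else 0)) := by
  have e1 : ∑ i ∈ range A.length, ∑ j ∈ range A.length, (if j = l ∧ i ≠ l then uu A i j else 0) =
      ∑ k ∈ range A.length, (if k ≠ l ∧ use A k l = true then 1 else 0) := by
    refine sum_congr rfl fun i _ => ?_
    rw [sum_eq_single_of_mem l (mem_range.2 hl) (fun j _ hj => if_neg (fun h => hj h.1))]
    by_cases h1 : i = l
    · simp [h1]
    · by_cases h2 : use A i l = true
      · simp [h1, h2, uu]
      · simp [h1, h2, uu]
  have e2 : ∑ k ∈ range A.length, (if k = l + 1 then cN A l else 0) = cN A l := by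
    rw [sum_ite_eq']
    by_cases h : l + 1 < A.length
    · rw [if_pos (mem_range.2 h)]
    · rw [if_neg (fun h' => h (mem_range.1 h')), cN_zero A l (by omega)]
  have e3 : ∑ k ∈ range A.length, (if l = k + 1 then cS A k else 0) =
      ∑ i ∈ range A.length, ∑ j ∈ range A.length, (if j < l ∧ l ≤ i then uu A i j else 0) := by
    rcases l with _ | l
    · rw [sum_eq_zero (fun k _ => if_neg (by omega)),
        sum_eq_zero (fun i _ => sum_eq_zero fun j _ => if_neg (by omega))]
    · rw [sum_eq_single_of_mem l (mem_range.2 (by omega)) (fun k _ hk => if_neg (by omega)),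
        if_pos rfl, cS_eq]
      refine sum_congr rfl fun i _ => sum_congr rfl fun j _ => ?_
      exact if_congr (by omega) rfl rfl
  simp only [yA, sum_add_distrib]
  rw [e2, e3, e1, cN_eq]

/-- the row sum -/
theorem row_sum (A : List (List Bool)) (l : ℕ) (hl : l < A.length) :
    ∑ k ∈ range A.length, yA A l k = ∑ i ∈ range A.length, ∑ j ∈ range A.length,
      ((if i = l ∧ j ≠ l then uu A i j else 0) + (if i < l ∧ l ≤ j then uu A i j else 0) +
        (if j ≤ l ∧ l < i then uu A i j else 0)) := by
  have e1 : ∑ i ∈ range A.length, ∑ j ∈ range A.length, (if i = l ∧ j ≠ l then uu A i j else 0) =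
      ∑ k ∈ range A.length, (if l ≠ k ∧ use A l k = true then 1 else 0) := by
    rw [sum_eq_single_of_mem l (mem_range.2 hl)
      (fun i _ hi => sum_eq_zero fun j _ => if_neg (fun h => hi h.1))]
    refine sum_congr rfl fun i _ => ?_
    by_cases h1 : i = l
    · simp [h1]
    · by_cases h2 : use A l i = true
      · simp [h1, h2, uu, Ne.symm h1]
      · simp [h2, uu]
  have e2 : ∑ k ∈ range A.length, (if k = l + 1 then cS A l else 0) = cS A l := by
    rw [sum_ite_eq']
    by_cases h : l + 1 < A.length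
    · rw [if_pos (mem_range.2 h)]
    · rw [if_neg (fun h' => h (mem_range.1 h')), cS_zero A l (by omega)]
  have e3 : ∑ k ∈ range A.length, (if l = k + 1 then cN A k else 0) =
      ∑ i ∈ range A.length, ∑ j ∈ range A.length, (if i < l ∧ l ≤ j then uu A i j else 0) := by
    rcases l with _ | l
    · rw [sum_eq_zero (fun k _ => if_neg (by omega)),
        sum_eq_zero (fun i _ => sum_eq_zero fun j _ => if_neg (by omega))]
    · rw [sum_eq_single_of_mem l (mem_range.2 (by omega)) (fun k _ hk => if_neg (by omega)),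
        if_pos rfl, cN_eq]
      refine sum_congr rfl fun i _ => sum_congr rfl fun j _ => ?_
      exact if_congr (by omega) rfl rfl
  simp only [yA, sum_add_distrib]
  rw [e2, e3, e1, cS_eq]

/-- **BAL** the matrix is balanced -/
theorem yA_bal (A : List (List Bool)) (l : ℕ) (hl : l < A.length) :
    ∑ k ∈ range A.length, yA A k l = ∑ k ∈ range A.length, yA A l k := by
  rw [col_sum A l hl, row_sum A l hl]
  refine sum_congr rfl fun i _ => sum_congr rfl fun j _ => ?_
  generalize uu A i j = u
  split_ifs <;> omega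

theorem cN_le (A : List (List Bool)) (t : ℕ) : cN A t ≤ A.length * A.length := by
  unfold cN
  calc _ ≤ ∑ i ∈ range A.length, ∑ j ∈ range A.length, 1 := by
        refine sum_le_sum fun i _ => sum_le_sum fun j _ => ?_
        split_ifs <;> omega
    _ = _ := by simp

theorem cS_le (A : List (List Bool)) (t : ℕ) : cS A t ≤ A.length * A.length := by
  unfold cS
  calc _ ≤ ∑ i ∈ range A.length, ∑ j ∈ range A.length, 1 := by
        refine sum_le_sum fun i _ => sum_le_sum fun j _ => ?_
        split_ifs <;> omega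
    _ = _ := by simp

theorem yA_le (A : List (List Bool)) (k l : ℕ) :
    yA A k l ≤ 1 + 2 * (A.length * A.length) := by
  have h1 := cN_le A l
  have h2 := cS_le A k
  unfold yA
  generalize A.length * A.length = N at *
  split_ifs <;> omega

theorem NE_le {n : ℕ} (Y : Fin n → Fin n → ℕ) (c : ℕ) (hY : ∀ k l, Y k l ≤ c) (P Q : ℕ) :
    NE Y P Q ≤ n * n * c := by
  unfold NE
  calc _ ≤ ∑ _k : Fin n, ∑ _l : Fin n, c := by
        refine sum_le_sum fun k _ => sum_le_sum fun l _ => ?_
        split_ifs
        · exact hY k l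
        · exact Nat.zero_le _
    _ = _ := by simp [mul_assoc]

theorem SW_le {n : ℕ} (Y : Fin n → Fin n → ℕ) (c : ℕ) (hY : ∀ k l, Y k l ≤ c) (P Q : ℕ) :
    SW Y P Q ≤ n * n * c := by
  unfold SW
  calc _ ≤ ∑ _k : Fin n, ∑ _l : Fin n, c := by
        refine sum_le_sum fun k _ => sum_le_sum fun l _ => ?_
        split_ifs
        · exact hY k l
        · exact Nat.zero_le _
    _ = _ := by simp [mul_assoc]

theorem upper_le {n : ℕ} (X : Fin n → Fin n → ℕ) :
    ∑ k, ∑ l, (if k.val < l.val then X k l else 0) ≤ ∑ t ∈ range n, NE X t t := by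
  have e : ∑ t ∈ range n, NE X t t =
      ∑ k, ∑ l, ∑ t ∈ range n, (if k.val < t ∧ t ≤ l.val then X k l else 0) := by
    unfold NE
    rw [sum_comm]
    refine sum_congr rfl fun k _ => ?_
    rw [sum_comm]
  rw [e]
  refine sum_le_sum fun k _ => sum_le_sum fun l _ => ?_
  split_ifs with h
  · calc X k l = (if k.val < l.val ∧ l.val ≤ l.val then X k l else 0) := by
          rw [if_pos ⟨h, le_rfl⟩]
      _ ≤ _ := single_le_sum (f := fun t => if k.val < t ∧ t ≤ l.val then X k l else 0)
          (fun _ _ => Nat.zero_le _) (mem_range.2 l.isLt)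
  · exact Nat.zero_le _

theorem lower_le {n : ℕ} (X : Fin n → Fin n → ℕ) :
    ∑ k, ∑ l, (if l.val < k.val then X k l else 0) ≤ ∑ t ∈ range n, SW X t t := by
  have e : ∑ t ∈ range n, SW X t t =
      ∑ k, ∑ l, ∑ t ∈ range n, (if t ≤ k.val ∧ l.val < t then X k l else 0) := by
    unfold SW
    rw [sum_comm]
    refine sum_congr rfl fun k _ => ?_
    rw [sum_comm]
  rw [e]
  refine sum_le_sum fun k _ => sum_le_sum fun l _ => ?_
  split_ifs with h
  · calc X k l = (if k.val ≤ k.val ∧ l.val < k.val then X k l else 0) := by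
          rw [if_pos ⟨le_rfl, h⟩]
      _ ≤ _ := single_le_sum (f := fun t => if t ≤ k.val ∧ l.val < t then X k l else 0)
          (fun _ _ => Nat.zero_le _) (mem_range.2 k.isLt)
  · exact Nat.zero_le _

/-- bound for the number of entries of dominated matrices -/
theorem dom_bound {n : ℕ} (X Y : Fin n → Fin n → ℕ) (c : ℕ) (hY : ∀ k l, Y k l ≤ c)
    (h : Dom X Y) : ∑ k, ∑ l, (if k = l then 0 else X k l) ≤ 2 * n * (n * n * c) := by
  have h1 : ∑ t ∈ range n, NE X t t ≤ n * (n * n * c) := by
    calc _ ≤ ∑ _t ∈ range n, n * n * c :=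
          sum_le_sum fun t _ => (h.1 t t le_rfl).trans (NE_le Y c hY t t)
      _ = _ := by simp
  have h2 : ∑ t ∈ range n, SW X t t ≤ n * (n * n * c) := by
    calc _ ≤ ∑ _t ∈ range n, n * n * c :=
          sum_le_sum fun t _ => (h.2 t t le_rfl).trans (SW_le Y c hY t t)
      _ = _ := by simp
  have h3 : ∑ k, ∑ l, (if k = l then 0 else X k l) =
      ∑ k, ∑ l, (if k.val < l.val then X k l else 0) +
        ∑ k, ∑ l, (if l.val < k.val then X k l else 0) := by
    rw [← sum_add_distrib]
    refine sum_congr rfl fun k _ => ?_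
    rw [← sum_add_distrib]
    refine sum_congr rfl fun l _ => ?_
    rcases lt_trichotomy k l with h | h | h
    · rw [if_neg h.ne, if_pos (Fin.lt_def.1 h), if_neg (by have := Fin.lt_def.1 h; omega), add_zero]
    · subst h
      simp
    · rw [if_neg h.ne', if_neg (by have := Fin.lt_def.1 h; omega), if_pos (Fin.lt_def.1 h), zero_add]
  rw [h3]
  calc _ ≤ n * (n * n * c) + n * (n * n * c) :=
        add_le_add ((upper_le X).trans h1) ((lower_le X).trans h2)
    _ = _ := by ring

end Pool.Agent.H549R2.BR
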