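import Pool.Agent.H549R2.BR.T1
import Pool.Agent.H549R2.BR.T2
import Pool.Agent.H549R2.BR.T5
import Pool.Agent.H549R2.BR.T7b

/-!
# The lower interval of a block permutation in the strong Bruhat order
-/

namespace Pool.Agent.H549R2.BR

open Finset Pool.Agent.H549R2.Convex

theorem yA_diag (A : List (List Bool)) (l : ℕ) : yA A l l = 0 := by
  unfold yA
  split_ifs with h1 h2 h3 <;> omega

theorem off_sum (A : List (List Bool)) (k : ℕ) :
    ∑ l' ∈ range A.length, (if k = l' then 0 else yA A k l') = ∑ l' ∈ range A.length, yA A k l' := by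
  refine sum_congr rfl fun l' _ => ?_
  split_ifs with h
  · subst h
    exact (yA_diag A k).symm
  · rfl

theorem row_le (A : List (List Bool)) (k : ℕ) : ∑ l' ∈ range A.length, yA A k l' ≤
    A.length * (1 + 2 * (A.length * A.length)) := by
  refine (sum_le_sum (g := fun _ => 1 + 2 * (A.length * A.length)) fun l' _ => yA_le A k l').trans ?_
  simp

theorem xA_row (A : List (List Bool)) (m : ℕ)
    (hm : A.length * (1 + 2 * (A.length * A.length)) ≤ m) (k : ℕ) (hk : k < A.length) :
    ∑ l ∈ range A.length, xA A m k l = m := by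
  have h1 := row_le A k
  have h2 : ∑ l ∈ range A.length, xA A m k l =
      ∑ l ∈ range A.length, ((if k = l then m - ∑ l' ∈ range A.length, yA A k l' else 0) +
        yA A k l) := by
    refine sum_congr rfl fun l _ => ?_
    unfold xA
    rw [off_sum]
    split_ifs with h
    · subst h
      rw [yA_diag, add_zero]
    · rw [zero_add]
  rw [h2, sum_add_distrib, Finset.sum_ite_eq, if_pos (mem_range.2 hk)]
  omega

theorem xA_col (A : List (List Bool)) (m : ℕ)
    (hm : A.length * (1 + 2 * (A.length * A.length)) ≤ m) (l : ℕ) (hl : l < A.length) :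
    ∑ k ∈ range A.length, xA A m k l = m := by
  have h1 := row_le A l
  have h2 : ∑ k ∈ range A.length, xA A m k l =
      ∑ k ∈ range A.length, ((if l = k then m - ∑ l' ∈ range A.length, yA A l l' else 0) +
        yA A k l) := by
    refine sum_congr rfl fun k _ => ?_
    unfold xA
    rw [off_sum]
    by_cases h : k = l
    · subst h
      rw [if_pos rfl, if_pos rfl, yA_diag, add_zero]
    · rw [if_neg h, if_neg (Ne.symm h), zero_add]
  rw [h2, sum_add_distrib, Finset.sum_ite_eq, if_pos (mem_range.2 hl), yA_bal A l hl]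
  omega

section Blocks

variable {n m : ℕ}

theorem mul_le_iff (hm : 0 < m) (Q x : ℕ) : Q * m ≤ x ↔ Q ≤ x / m :=
  (Nat.le_div_iff_mul_le hm).symm

theorem lt_mul_iff (hm : 0 < m) (P x : ℕ) : x < P * m ↔ x / m < P :=
  (Nat.div_lt_iff_lt_mul hm).symm

theorem blk_lt (hm : 0 < m) (i : Fin (n * m)) : i.val / m < n := (lt_mul_iff hm n _).1 i.2

theorem corner (hm : 0 < m) (σ : Equiv.Perm (Fin (n * m))) (R : ℕ → ℕ → Prop)
    [∀ a b, Decidable (R a b)] :
    (univ.filter (fun i : Fin (n * m) => R (i.val / m) ((σ i).val / m))).card =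
      ∑ k : Fin n, ∑ l : Fin n, if R k.val l.val then bm σ k l else 0 := by
  rw [Finset.card_filter]
  have h1 : ∀ i : Fin (n * m), (if R (i.val / m) ((σ i).val / m) then 1 else 0 : ℕ) =
      ∑ k : Fin n, ∑ l : Fin n, if R k.val l.val then
        (if i.val / m = k.val ∧ (σ i).val / m = l.val then 1 else 0) else 0 := by
    intro i
    rw [Finset.sum_eq_single (⟨i.val / m, blk_lt hm i⟩ : Fin n)]
    · rw [Finset.sum_eq_single (⟨(σ i).val / m, blk_lt hm (σ i)⟩ : Fin n)]
      · simp
      · intro l _ hl
        have : ¬ (σ i).val / m = l.val := fun h => hl (Fin.ext h.symm)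
        simp [this]
      · intro h
        exact absurd (mem_univ _) h
    · intro k _ hk
      have : ¬ i.val / m = k.val := fun h => hk (Fin.ext h.symm)
      simp [this]
    · intro h
      exact absurd (mem_univ _) h
  rw [Finset.sum_congr rfl fun i _ => h1 i, Finset.sum_comm]
  refine Finset.sum_congr rfl fun k _ => ?_
  rw [Finset.sum_comm]
  refine Finset.sum_congr rfl fun l _ => ?_
  split_ifs with h
  · rw [bm, Finset.card_filter]
  · simp

theorem rnk_block (hm : 0 < m) (σ : Equiv.Perm (Fin (n * m))) (P Q : ℕ) :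
    rnk σ (P * m) (Q * m) = NE (bm σ) P Q := by
  rw [NE, ← corner hm σ (fun a b => a < P ∧ Q ≤ b), rnk]
  congr 1
  refine filter_congr fun i _ => ?_
  rw [lt_mul_iff hm, mul_le_iff hm]

theorem sw_block (hm : 0 < m) (σ : Equiv.Perm (Fin (n * m))) (P Q : ℕ) :
    sw σ (P * m) (Q * m) = SW (bm σ) P Q := by
  rw [SW, ← corner hm σ (fun a b => P ≤ a ∧ b < Q), sw]
  congr 1
  refine filter_congr fun i _ => ?_
  rw [lt_mul_iff hm, mul_le_iff hm]

theorem rnk_sw {N : ℕ} (σ : Equiv.Perm (Fin N)) (p q : ℕ) (hp : p ≤ N) (hq : q ≤ N) :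
    rnk σ p q + q = sw σ p q + p := by
  have h1 : (univ.filter (fun i : Fin N => i.val < p)).card = p := by
    rw [Fin.card_filter_val_lt, Nat.min_eq_right hp]
  have h2 : (univ.filter (fun i : Fin N => (σ i).val < q)).card = q := by
    have : (univ.filter (fun i : Fin N => (σ i).val < q)).card =
        (univ.filter (fun i : Fin N => i.val < q)).card := by
      rw [Finset.card_filter, Finset.card_filter]
      exact Equiv.sum_comp σ (fun i => if i.val < q then 1 else 0)
    rw [this, Fin.card_filter_val_lt, Nat.min_eq_right hq]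
  have h3 : (univ.filter (fun i : Fin N => i.val < p)).card =
      rnk σ p q + (univ.filter (fun i : Fin N => i.val < p ∧ (σ i).val < q)).card := by
    rw [rnk, ← Finset.card_filter_add_card_filter_not (s := univ.filter (fun i : Fin N => i.val < p))
      (p := fun i => q ≤ (σ i).val), filter_filter, filter_filter]
    simp only [not_le]
  have h4 : (univ.filter (fun i : Fin N => (σ i).val < q)).card =
      sw σ p q + (univ.filter (fun i : Fin N => i.val < p ∧ (σ i).val < q)).card := by
    rw [sw, ← Finset.card_filter_add_card_filter_not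
      (s := univ.filter (fun i : Fin N => (σ i).val < q))
      (p := fun i => p ≤ i.val), filter_filter, filter_filter]
    simp only [not_le]
    congr 2
    · exact filter_congr fun i _ => and_comm
    · exact filter_congr fun i _ => and_comm
  omega

theorem NE_congr (X Y : Fin n → Fin n → ℕ) (h : ∀ k l, k ≠ l → X k l = Y k l) (P Q : ℕ)
    (hPQ : P ≤ Q) : NE X P Q = NE Y P Q := by
  rw [NE, NE]
  refine sum_congr rfl fun k _ => sum_congr rfl fun l _ => ?_
  split_ifs with h1
  · exact h k l (fun e => by rw [e] at h1; omega)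
  · rfl

theorem SW_congr (X Y : Fin n → Fin n → ℕ) (h : ∀ k l, k ≠ l → X k l = Y k l) (P Q : ℕ)
    (hPQ : Q ≤ P) : SW X P Q = SW Y P Q := by
  rw [SW, SW]
  refine sum_congr rfl fun k _ => sum_congr rfl fun l _ => ?_
  split_ifs with h1
  · exact h k l (fun e => by rw [e] at h1; omega)
  · rfl

theorem NE_big (X : Fin n → Fin n → ℕ) (P Q : ℕ) (hQ : n ≤ Q) : NE X P Q = 0 := by
  rw [NE]
  refine sum_eq_zero fun k _ => sum_eq_zero fun l _ => ?_
  rw [if_neg]
  have := l.2
  omega

theorem SW_big (X : Fin n → Fin n → ℕ) (P Q : ℕ) (hP : n ≤ P) : SW X P Q = 0 := by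
  rw [SW]
  refine sum_eq_zero fun k _ => sum_eq_zero fun l _ => ?_
  rw [if_neg]
  have := k.2
  omega

/-- the lower interval of a block permutation -/
theorem ble_block (hm : 0 < m) (w σ : Equiv.Perm (Fin (n * m))) (Y : Fin n → Fin n → ℕ)
    (h3 : ∀ i j : Fin (n * m), i < j → i.val / m = j.val / m → w j < w i)
    (h4 : ∀ i j : Fin (n * m), w i < w j → (w i).val / m = (w j).val / m → j < i)
    (h5 : ∀ k l, k ≠ l → bm w k l = Y k l) : BLE σ w ↔ Dom (bm σ) Y := by
  rw [ble_iff]
  constructor
  · intro h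
    constructor
    · intro P Q hPQ
      rw [← NE_congr _ _ h5 P Q hPQ, ← rnk_block hm, ← rnk_block hm]
      exact h _ _
    · intro P Q hPQ
      rcases Nat.lt_or_ge P n with hP | hP
      · rw [← SW_congr _ _ h5 P Q hPQ, ← sw_block hm, ← sw_block hm]
        have h6 := h (P * m) (Q * m)
        have h7 := rnk_sw σ (P * m) (Q * m) (Nat.mul_le_mul_right _ hP.le)
          (Nat.mul_le_mul_right _ (by omega))
        have h8 := rnk_sw w (P * m) (Q * m) (Nat.mul_le_mul_right _ hP.le)
          (Nat.mul_le_mul_right _ (by omega))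
        omega
      · rw [SW_big _ _ _ hP]
        exact Nat.zero_le _
  · intro h
    refine block_le w σ h3 h4 fun P Q hP hQ => ?_
    rcases Nat.le_total P Q with hPQ | hPQ
    · rw [rnk_block hm, rnk_block hm, NE_congr _ _ h5 P Q hPQ]
      exact h.1 P Q hPQ
    · have h6 := h.2 P Q hPQ
      rw [← SW_congr _ _ h5 P Q hPQ, ← sw_block hm, ← sw_block hm] at h6
      have h7 := rnk_sw σ (P * m) (Q * m) (Nat.mul_le_mul_right _ hP)
        (Nat.mul_le_mul_right _ hQ)
      have h8 := rnk_sw w (P * m) (Q * m) (Nat.mul_le_mul_right _ hP)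
        (Nat.mul_le_mul_right _ hQ)
      omega

end Blocks

/-- the size of a lower interval, from the list of the values -/
theorem below_eq (l : List ℕ) (N : ℕ) (hN : l.length = N) (w : Equiv.Perm (Fin N))
    (hw : ∀ i : Fin N, (w i).val = l.getD i.val 0) :
    below l = Nat.card {σ : Equiv.Perm (Fin N) // BLE σ w} := by
  subst hN
  rw [below]
  refine Nat.card_congr (Equiv.subtypeEquivRight fun σ => ?_)
  constructor
  · rintro ⟨w', hw', hb⟩
    have : w' = w := by
      ext i
      rw [hw', hw, List.getD_eq_getElem _ _ i.2, List.get_eq_getElem]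
    rw [← this]
    exact hb
  · intro hb
    exact ⟨w, fun i => by rw [hw, List.getD_eq_getElem _ _ i.2, List.get_eq_getElem], hb⟩

theorem below_ofFn {N : ℕ} (w : Equiv.Perm (Fin N)) :
    below (List.ofFn fun i => (w i).val) = Nat.card {σ : Equiv.Perm (Fin N) // BLE σ w} := by
  refine below_eq _ N List.length_ofFn w fun i => ?_
  rw [List.getD_eq_getElem _ _ (by simp), List.getElem_ofFn]

end Pool.Agent.H549R2.BR
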