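import Pool.Agent.H549R2.BR.Defs

namespace Pool.Agent.H549R2.BR

open Finset

namespace Ext

open Polynomial

theorem desc_neg_one (k : ℕ) :
    (descPochhammer ℚ k).eval (-1) = (-1) ^ k * (k.factorial : ℚ) := by
  induction k with
  | zero => simp
  | succ k ih =>
    rw [descPochhammer_succ_eval, ih, Nat.factorial_succ]
    push_cast
    ring

theorem desc_choose (k x : ℕ) :
    (descPochhammer ℚ k).eval (x : ℚ) / (k.factorial : ℚ) = (x.choose k : ℚ) := by
  rw [descPochhammer_eval_eq_descFactorial, Nat.descFactorial_eq_factorial_mul_choose]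
  push_cast
  have : (k.factorial : ℚ) ≠ 0 := by positivity
  field_simp

/-- the first factor -/
noncomputable def PP (b : ℕ → ℕ) (D : ℕ) : ℚ[X] :=
  ∑ j ∈ range (D + 1), C ((b j : ℚ) / j.factorial) * descPochhammer ℚ j

/-- the second factor -/
noncomputable def QQ (s : ℕ) : ℚ[X] :=
  C (1 / ((s - 1).factorial : ℚ)) * (descPochhammer ℚ (s - 1)).comp (X - C 2)

theorem PP_eval (b : ℕ → ℕ) (D x : ℕ) :
    (PP b D).eval (x : ℚ) = ((∑ j ∈ range (D + 1), x.choose j * b j : ℕ) : ℚ) := by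
  unfold PP
  rw [eval_finsetSum]
  push_cast
  refine Finset.sum_congr rfl fun j _ => ?_
  rw [eval_mul, eval_C, ← desc_choose j x]
  ring

theorem PP_deg (b : ℕ → ℕ) (D : ℕ) : (PP b D).natDegree ≤ D := by
  unfold PP
  refine natDegree_sum_le_of_forall_le _ _ fun j hj => ?_
  rw [mem_range] at hj
  refine (natDegree_C_mul_le _ _).trans ?_
  rw [descPochhammer_natDegree]
  omega

theorem QQ_deg (s : ℕ) : (QQ s).natDegree ≤ s - 1 := by
  unfold QQ
  refine (natDegree_C_mul_le _ _).trans ?_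
  rw [natDegree_comp, descPochhammer_natDegree, natDegree_X_sub_C]
  omega

theorem QQ_eval (s x : ℕ) : (QQ s).eval ((x : ℚ) + 2) = ((x.choose (s - 1) : ℕ) : ℚ) := by
  unfold QQ
  rw [eval_mul, eval_C, eval_comp, eval_sub, eval_X, eval_C, add_sub_cancel_right,
    ← desc_choose]
  ring

theorem QQ_one (s : ℕ) : (QQ s).eval 1 = (-1) ^ (s - 1) := by
  unfold QQ
  rw [eval_mul, eval_C, eval_comp, eval_sub, eval_X, eval_C,
    show (1 : ℚ) - 2 = -1 by norm_num, desc_neg_one]
  have : ((s - 1).factorial : ℚ) ≠ 0 := by positivity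
  field_simp

end Ext

open Ext in
/-- **EXT** extrapolation to `1` -/
theorem extrap (b : ℕ → ℕ) (D s : ℕ) (hD : Even D) (hs : 2 ≤ s) :
    ∑ t ∈ range (D + s + 1), (-1 : ℤ) ^ t * ((D + s).choose t) *
      ((if t ≤ D then (D + s - 1 - t).choose (s - 1) *
        (∑ j ∈ range (D + 1), (D + s + 1 - t).choose j * b j) else 0 : ℕ) : ℤ) =
      ((∑ j ∈ range (D + 1), (1 : ℕ).choose j * b j : ℕ) : ℤ) := by
  set N := D + s with hN
  have hdeg : (PP b D * QQ s).natDegree < N := by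
    have h1 := PP_deg b D
    have h2 := QQ_deg s
    have h3 := Polynomial.natDegree_mul_le (p := PP b D) (q := QQ s)
    omega
  have h0 := congrFun (Polynomial.fwdDiff_iter_eq_zero_of_degree_lt hdeg) (1 : ℚ)
  rw [fwdDiff_iter_eq_sum_shift, Pi.zero_apply, ← Finset.sum_range_reflect,
    Finset.sum_range_succ] at h0
  rw [Finset.sum_range_succ]
  have hlast : ¬ N ≤ D := by omega
  rw [if_neg hlast]
  have hterm : ∀ t ∈ range N,
      ((-1 : ℤ) ^ (N - (N + 1 - 1 - t)) * (N.choose (N + 1 - 1 - t) : ℤ)) •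
        Polynomial.eval (1 + (N + 1 - 1 - t) • (1 : ℚ)) (PP b D * QQ s) =
      (((-1 : ℤ) ^ t * (N.choose t) *
        ((if t ≤ D then (N - 1 - t).choose (s - 1) *
          (∑ j ∈ range (D + 1), (N + 1 - t).choose j * b j) else 0 : ℕ) : ℤ) : ℤ) : ℚ) := by
    intro t ht
    rw [mem_range] at ht
    have e1 : N + 1 - 1 - t = N - t := by omega
    have e2 : N - (N - t) = t := by omega
    have e3 : (1 : ℚ) + (N - t) • (1 : ℚ) = ((N + 1 - t : ℕ) : ℚ) := by
      rw [nsmul_eq_mul, show N + 1 - t = 1 + (N - t) by omega]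
      push_cast
      ring
    have e4 : ((N + 1 - t : ℕ) : ℚ) = ((N - 1 - t : ℕ) : ℚ) + 2 := by
      rw [show N + 1 - t = (N - 1 - t) + 2 by omega]
      push_cast
      ring
    rw [e1, e2, Nat.choose_symm (by omega : t ≤ N), e3, Polynomial.eval_mul, PP_eval, e4, QQ_eval,
      zsmul_eq_mul]
    push_cast
    rw [mul_assoc, mul_assoc]
    congr 2
    split_ifs with h
    · push_cast
      ring
    · have : (N - 1 - t).choose (s - 1) = 0 := Nat.choose_eq_zero_of_lt (by omega)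
      rw [this]
      simp
  rw [Finset.sum_congr rfl hterm] at h0
  have e5 : N + 1 - 1 - N = 0 := by omega
  rw [e5] at h0
  have e6 : Polynomial.eval (1 + (0 : ℕ) • (1 : ℚ)) (PP b D * QQ s) =
      ((∑ j ∈ range (D + 1), (1 : ℕ).choose j * b j : ℕ) : ℚ) * (-1) ^ (s - 1) := by
    rw [zero_smul, add_zero, Polynomial.eval_mul, QQ_one]
    have := PP_eval b D 1
    rw [Nat.cast_one] at this
    rw [this]
  rw [e6] at h0
  have e7 : ((-1 : ℚ)) ^ N * (-1) ^ (s - 1) = -1 := by
    rw [← pow_add, show N + (s - 1) = D + 2 * (s - 1) + 1 by omega, pow_succ, pow_add, pow_mul,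
      hD.neg_one_pow]
    norm_num
  have h1 : ((∑ t ∈ range N, ((-1 : ℤ) ^ t * (N.choose t) *
        ((if t ≤ D then (N - 1 - t).choose (s - 1) *
          (∑ j ∈ range (D + 1), (N + 1 - t).choose j * b j) else 0 : ℕ) : ℤ) : ℤ) : ℤ) : ℚ) =
      (((∑ j ∈ range (D + 1), (1 : ℕ).choose j * b j : ℕ) : ℤ) : ℚ) := by
    rw [Int.cast_sum]
    rw [Nat.sub_zero, Nat.choose_zero_right, zsmul_eq_mul] at h0
    push_cast at h0 ⊢
    linear_combination h0 - (∑ j ∈ range (D + 1), ((1 : ℕ).choose j : ℚ) * (b j : ℚ)) * e7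
  have h2 := Int.cast_injective (α := ℚ) h1
  rw [h2]
  simp

end Pool.Agent.H549R2.BR
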