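import Pool.Agent.H549R2.BR.Defs

namespace Pool.Agent.H549R2.BR

open Finset

namespace Sup

variable {Φ M : Type} [Fintype Φ] [DecidableEq Φ] [AddCommMonoid M]

open Classical in
/-- number of functions -/
noncomputable def aa (w : Φ → M) (Pr : M → Prop) : ℕ → M → ℕ
  | 0, y => if Pr y then 1 else 0
  | m + 1, y => ∑ φ, aa w Pr m (y + w φ)

open Classical in
/-- number of functions without the neutral value -/
noncomputable def bb (e : Φ) (w : Φ → M) (Pr : M → Prop) : ℕ → M → ℕ
  | 0, y => if Pr y then 1 else 0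
  | m + 1, y => ∑ φ ∈ univ.erase e, bb e w Pr m (y + w φ)

omit [DecidableEq Φ] in
open Classical in
theorem aa_eq (w : Φ → M) (Pr : M → Prop) (m : ℕ) : ∀ y,
    ∑ g : Fin m → Φ, (if Pr (y + ∑ a, w (g a)) then 1 else 0) = aa w Pr m y := by
  induction m with
  | zero => intro y; simp [aa]
  | succ m ih =>
    intro y
    rw [aa, ← (Fin.consEquiv (fun _ : Fin (m + 1) => Φ)).sum_comp, Fintype.sum_prod_type]
    refine Finset.sum_congr rfl fun φ _ => ?_
    rw [← ih]
    refine Finset.sum_congr rfl fun g _ => ?_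
    rw [Fin.sum_univ_succ, ← add_assoc]
    simp [Fin.consEquiv]

omit [DecidableEq Φ] in
theorem card_eq (w : Φ → M) (Pr : M → Prop) (m : ℕ) (y : M) :
    Nat.card {g : Fin m → Φ // Pr (y + ∑ a, w (g a))} = aa w Pr m y := by
  classical
  rw [← aa_eq, Nat.card_eq_fintype_card, Fintype.card_subtype, card_eq_sum_ones, sum_filter]

theorem aa_bb (e : Φ) (w : Φ → M) (hw : w e = 0) (Pr : M → Prop) (m : ℕ) : ∀ J y, m ≤ J →
    aa w Pr m y = ∑ j ∈ range (J + 1), m.choose j * bb e w Pr j y := by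
  induction m with
  | zero =>
    intro J y _
    rw [Finset.sum_range_succ']
    simp [aa, bb]
  | succ m ih =>
    intro J y hJ
    obtain ⟨J', rfl⟩ : ∃ J', J = J' + 1 := ⟨J - 1, by omega⟩
    rw [aa, ← Finset.add_sum_erase _ _ (mem_univ e), hw, add_zero, ih (J' + 1) y (by omega)]
    have h1 : ∑ φ ∈ univ.erase e, aa w Pr m (y + w φ) =
        ∑ j ∈ range (J' + 1), m.choose j * bb e w Pr (j + 1) y := by
      rw [Finset.sum_congr rfl fun φ _ => ih J' (y + w φ) (by omega), Finset.sum_comm]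
      refine Finset.sum_congr rfl fun j _ => ?_
      rw [← Finset.mul_sum, bb]
    rw [h1, Finset.sum_range_succ', Finset.sum_range_succ' _ (J' + 1), add_right_comm,
      ← Finset.sum_add_distrib]
    congr 1
    · refine Finset.sum_congr rfl fun j _ => ?_
      rw [Nat.choose_succ_succ]
      ring
    · simp

theorem bb_zero (e : Φ) (w : Φ → M) (Pr : M → Prop) (s : M → ℕ)
    (hs : ∀ x y, s (x + y) = s x + s y) (hs1 : ∀ φ, φ ≠ e → 1 ≤ s (w φ)) (D : ℕ)
    (hD : ∀ x, Pr x → s x ≤ D) (j : ℕ) : ∀ y, D < j + s y → bb e w Pr j y = 0 := by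
  induction j with
  | zero =>
    intro y hy
    rw [bb, if_neg]
    intro h
    have := hD y h
    omega
  | succ j ih =>
    intro y hy
    rw [bb]
    refine Finset.sum_eq_zero fun φ hφ => ?_
    apply ih
    rw [hs]
    have := hs1 φ (Finset.ne_of_mem_erase hφ)
    omega

end Sup

open Sup in
/-- **SUP** the counting function is a combination of binomial coefficients -/
theorem support {Φ M : Type} [Fintype Φ] [DecidableEq Φ] [AddCommMonoid M] (e : Φ) (w : Φ → M)
    (hw : w e = 0) (Pr : M → Prop) (s : M → ℕ) (hs : ∀ x y, s (x + y) = s x + s y)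
    (hs1 : ∀ φ, φ ≠ e → 1 ≤ s (w φ)) (D : ℕ) (hD : ∀ x, Pr x → s x ≤ D) :
    ∃ b : ℕ → ℕ, ∀ m, Nat.card {g : Fin m → Φ // Pr (∑ a, w (g a))} =
      ∑ j ∈ range (D + 1), m.choose j * b j := by
  refine ⟨fun j => bb e w Pr j 0, fun m => ?_⟩
  have h1 := card_eq w Pr m 0
  simp only [zero_add] at h1
  rw [h1, aa_bb e w hw Pr m (m + D) 0 (by omega)]
  symm
  apply Finset.sum_subset
  · intro j hj
    rw [mem_range] at hj ⊢
    omega
  · intro j _ hj
    rw [mem_range] at hj
    have h2 := bb_zero e w Pr s hs hs1 D hD j 0 (by omega)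
    simp only [h2, mul_zero]

end Pool.Agent.H549R2.BR
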