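import Pool.Agent.H549R2.BR.Defs
import Pool.Agent.H549R2.Convex1

namespace Pool.Agent.H549R2.BR

open Finset

namespace CNT

variable {n m : ℕ}

/-- labels of the blocks of the values -/
def gOf (σ : Equiv.Perm (Fin (n * m))) : Fin m → Fin n → Fin n := fun a k =>
  (finProdFinEquiv.symm (σ (finProdFinEquiv (k, a)))).1

/-- number of maps with `g a k = l` -/
def cnt (g : Fin m → Fin n → Fin n) (k l : Fin n) : ℕ :=
  (univ.filter (fun a : Fin m => g a k = l)).card

theorem fst_val (c : Fin (n * m)) : (finProdFinEquiv.symm c).1.val = c.val / m := rfl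

theorem E_div (k : Fin n) (a : Fin m) :
    (finProdFinEquiv (k, a) : Fin (n * m)).val / m = k.val := by
  rw [← fst_val, Equiv.symm_apply_apply]

theorem bm_eq (σ : Equiv.Perm (Fin (n * m))) (k l : Fin n) : bm σ k l = cnt (gOf σ) k l := by
  unfold bm cnt
  symm
  apply Finset.card_bij (fun a _ => (finProdFinEquiv (k, a) : Fin (n * m)))
  · intro a ha
    rw [mem_filter] at ha ⊢
    refine ⟨mem_univ _, E_div k a, ?_⟩
    rw [← fst_val, ← ha.2]
    rfl
  · intro a _ b _ hab
    have := finProdFinEquiv.injective hab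
    exact (Prod.mk.inj this).2
  · intro c hc
    rw [mem_filter] at hc
    have h1 : (finProdFinEquiv.symm c).1 = k := Fin.ext (by rw [fst_val]; exact hc.2.1)
    have h2 : finProdFinEquiv (k, (finProdFinEquiv.symm c).2) = c := by
      rw [← h1]
      exact Equiv.apply_symm_apply _ c
    refine ⟨(finProdFinEquiv.symm c).2, ?_, h2⟩
    rw [mem_filter]
    refine ⟨mem_univ _, ?_⟩
    apply Fin.ext
    unfold gOf
    rw [h2, fst_val]
    exact hc.2.2

theorem sum_offw (g : Fin m → Fin n → Fin n) (k l : Fin n) :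
    (∑ a, offw (g a)) k l = if k ≠ l then cnt g k l else 0 := by
  rw [Finset.sum_apply, Finset.sum_apply]
  unfold offw cnt
  split_ifs with h
  · rw [Finset.card_filter]
    refine Finset.sum_congr rfl fun a _ => ?_
    simp [h]
  · refine Finset.sum_eq_zero fun a _ => ?_
    rw [if_neg (fun h' => h h'.2)]

theorem NE_congr {X X' : Fin n → Fin n → ℕ} (h : ∀ k l, k ≠ l → X k l = X' k l) {P Q : ℕ}
    (hPQ : P ≤ Q) : NE X P Q = NE X' P Q := by
  unfold NE
  refine Finset.sum_congr rfl fun k _ => Finset.sum_congr rfl fun l _ => ?_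
  split_ifs with hc
  · exact h k l (fun e => by rw [e] at hc; omega)
  · rfl

theorem SW_congr {X X' : Fin n → Fin n → ℕ} (h : ∀ k l, k ≠ l → X k l = X' k l) {P Q : ℕ}
    (hPQ : Q ≤ P) : SW X P Q = SW X' P Q := by
  unfold SW
  refine Finset.sum_congr rfl fun k _ => Finset.sum_congr rfl fun l _ => ?_
  split_ifs with hc
  · exact h k l (fun e => by rw [e] at hc; omega)
  · rfl

theorem Dom_congr {X X' Y : Fin n → Fin n → ℕ} (h : ∀ k l, k ≠ l → X k l = X' k l) :
    Dom X Y ↔ Dom X' Y := by
  unfold Dom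
  refine and_congr (forall_congr' fun P => forall_congr' fun Q => forall_congr' fun hPQ => ?_)
    (forall_congr' fun P => forall_congr' fun Q => forall_congr' fun hPQ => ?_)
  · rw [NE_congr h hPQ]
  · rw [SW_congr h hPQ]

theorem cnt_row (g : Fin m → Fin n → Fin n) (k : Fin n) : ∑ l, cnt g k l = m := by
  unfold cnt
  have := Finset.card_eq_sum_card_fiberwise (s := (univ : Finset (Fin m)))
    (t := (univ : Finset (Fin n))) (f := fun a => g a k) (fun _ _ => by simp)
  rw [Finset.card_univ, Fintype.card_fin] at this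
  exact this.symm

theorem sum_off_add (f : Fin n → ℕ) (l : Fin n) :
    (∑ k, if k ≠ l then f k else 0) + f l = ∑ k, f k := by
  rw [← Finset.sum_erase_add univ f (mem_univ l), ← Finset.sum_filter]
  congr 2
  ext k
  simp

theorem bal_iff (g : Fin m → Fin n → Fin n) :
    Bal (∑ a, offw (g a)) ↔ ∀ l, ∑ k, cnt g k l = m := by
  unfold Bal
  refine forall_congr' fun l => ?_
  have h1 := sum_off_add (fun k => cnt g k l) l
  have h2 := sum_off_add (fun k => cnt g l k) l
  have h3 := cnt_row g l
  have e1 : ∑ k, (∑ a, offw (g a)) k l = ∑ k, if k ≠ l then cnt g k l else 0 :=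
    Finset.sum_congr rfl fun k _ => sum_offw g k l
  have e2 : ∑ k, (∑ a, offw (g a)) l k = ∑ k, if k ≠ l then cnt g l k else 0 :=
    Finset.sum_congr rfl fun k _ => by
      rw [sum_offw g l k]
      simp only [ne_comm]
  omega

/-- the labels as a function on the positions -/
def pg (g : Fin m → Fin n → Fin n) (c : Fin (n * m)) : ℕ :=
  (g (finProdFinEquiv.symm c).2 (finProdFinEquiv.symm c).1).val

theorem gOf_eq_iff (g : Fin m → Fin n → Fin n) (σ : Equiv.Perm (Fin (n * m))) :
    gOf σ = g ↔ ∀ c, (σ c).val / m = pg g c := by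
  constructor
  · rintro rfl c
    unfold pg gOf
    rw [fst_val]
    congr 2
    have : (finProdFinEquiv ((finProdFinEquiv.symm c).1, (finProdFinEquiv.symm c).2) :
      Fin (n * m)) = c := Equiv.apply_symm_apply _ c
    rw [this]
  · intro h
    funext a k
    apply Fin.ext
    unfold gOf
    rw [fst_val, h]
    unfold pg
    rw [Equiv.symm_apply_apply]

theorem card_pg (g : Fin m → Fin n → Fin n) (l : Fin n) :
    Fintype.card {c : Fin (n * m) // pg g c = l.val} = ∑ k, cnt g k l := by
  rw [Fintype.card_subtype, Finset.card_filter]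
  rw [← Equiv.sum_comp (finProdFinEquiv (m := n) (n := m)), Fintype.sum_prod_type]
  refine Finset.sum_congr rfl fun k _ => ?_
  unfold cnt
  rw [Finset.card_filter]
  refine Finset.sum_congr rfl fun a _ => ?_
  unfold pg
  rw [Equiv.symm_apply_apply]
  simp only [Fin.ext_iff]

theorem card_tau (l : Fin n) :
    Fintype.card {c : Fin (n * m) // c.val / m = l.val} = m := by
  rw [Fintype.card_subtype, Finset.card_filter]
  rw [← Equiv.sum_comp (finProdFinEquiv (m := n) (n := m)), Fintype.sum_prod_type]
  rw [Finset.sum_eq_single l]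
  · rw [Finset.sum_congr rfl (g := fun _ => 1) (fun a _ => by rw [if_pos (E_div l a)])]
    simp
  · intro k _ hk
    refine Finset.sum_eq_zero fun a _ => ?_
    rw [if_neg]
    rw [E_div]
    exact fun h => hk (Fin.ext h)
  · simp

theorem count_single {C : Type*} [Fintype C] (q : C → ℕ) (k : ℕ) :
    (∑ c, Finsupp.single (q c) 1 : ℕ →₀ ℕ) k = Fintype.card {c // q c = k} := by
  classical
  rw [Finsupp.finsetSum_apply, Fintype.card_subtype, Finset.card_filter]
  exact Finset.sum_congr rfl fun c _ => by rw [Finsupp.single_apply]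

theorem cond_iff (g : Fin m → Fin n → Fin n) :
    (∑ c, Finsupp.single (pg g c) 1 : ℕ →₀ ℕ) =
      ∑ c : Fin (n * m), Finsupp.single (c.val / m) 1 ↔ ∀ l, ∑ k, cnt g k l = m := by
  constructor
  · intro h l
    have h1 := DFunLike.congr_fun h l.val
    rw [count_single, count_single, card_pg, card_tau] at h1
    exact h1
  · intro h
    ext l
    rw [count_single, count_single]
    by_cases hl : l < n
    · have h1 := card_pg g ⟨l, hl⟩
      have h2 := card_tau (n := n) (m := m) ⟨l, hl⟩
      simp only at h1 h2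
      rw [h1, h2, h]
    · rw [Fintype.card_eq_zero_iff.2, Fintype.card_eq_zero_iff.2]
      · refine ⟨fun c => hl ?_⟩
        rw [← c.2, ← fst_val]
        exact Fin.isLt _
      · refine ⟨fun c => hl ?_⟩
        rw [← c.2]
        exact Fin.isLt _

theorem prod_fact (hm : 0 < m) :
    ∏ k ∈ univ.image (fun c : Fin (n * m) => c.val / m),
      (Fintype.card {c : Fin (n * m) // c.val / m = k}).factorial = m.factorial ^ n := by
  have h1 : univ.image (fun c : Fin (n * m) => c.val / m) = range n := by
    ext k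
    rw [mem_image, mem_range]
    constructor
    · rintro ⟨c, _, rfl⟩
      rw [← fst_val]
      exact Fin.isLt _
    · intro hk
      exact ⟨finProdFinEquiv (⟨k, hk⟩, ⟨0, hm⟩), mem_univ _, E_div ⟨k, hk⟩ ⟨0, hm⟩⟩
  rw [h1]
  have h2 : ∀ k ∈ range n, (Fintype.card {c : Fin (n * m) // c.val / m = k}).factorial =
      m.factorial := by
    intro k hk
    have := card_tau (n := n) (m := m) ⟨k, mem_range.1 hk⟩
    simp only at this
    rw [this]
  rw [Finset.prod_congr rfl h2, Finset.prod_const, card_range]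

theorem card_fiber (hm : 0 < m) (g : Fin m → Fin n → Fin n) :
    (univ.filter (fun σ : Equiv.Perm (Fin (n * m)) => gOf σ = g)).card =
      if ∀ l, ∑ k, cnt g k l = m then m.factorial ^ n else 0 := by
  have h := Pool.Agent.H549R2.Convex.card_lifts (pg g) (fun c : Fin (n * m) => c.val / m)
  have e1 : (univ.filter (fun σ : Equiv.Perm (Fin (n * m)) => gOf σ = g)) =
      univ.filter (fun σ : Equiv.Perm (Fin (n * m)) => ∀ c, (σ c).val / m = pg g c) := by
    refine Finset.filter_congr fun σ _ => gOf_eq_iff g σ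
  rw [e1]
  have h' : (univ.filter (fun σ : Equiv.Perm (Fin (n * m)) => ∀ c, (σ c).val / m = pg g c)).card =
      if (∑ c, Finsupp.single (pg g c) 1 : ℕ →₀ ℕ) =
        ∑ c : Fin (n * m), Finsupp.single (c.val / m) 1 then
        ∏ k ∈ univ.image (fun c : Fin (n * m) => c.val / m),
      (Fintype.card {c : Fin (n * m) // c.val / m = k}).factorial else 0 := by
    convert h
  rw [h', prod_fact hm]
  by_cases hc : ∀ l, ∑ k, cnt g k l = m
  · rw [if_pos ((cond_iff g).2 hc), if_pos hc]
  · rw [if_neg (fun h' => hc ((cond_iff g).1 h')), if_neg hc]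

end CNT

open CNT in
/-- **CNT** counting the permutations with a dominated block matrix -/
theorem count_eq {n m : ℕ} (hm : 0 < m) (Y : Fin n → Fin n → ℕ) :
    Nat.card {σ : Equiv.Perm (Fin (n * m)) // Dom (bm σ) Y} = m.factorial ^ n * cntA n m Y := by
  classical
  unfold cntA
  rw [Nat.card_eq_fintype_card, Nat.card_eq_fintype_card, Fintype.card_subtype,
    Fintype.card_subtype]
  rw [Finset.card_eq_sum_card_fiberwise (f := gOf) (t := univ) (fun _ _ => by simp)]
  rw [Finset.card_filter, Finset.mul_sum]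
  refine Finset.sum_congr rfl fun g _ => ?_
  have hD : ∀ σ : Equiv.Perm (Fin (n * m)), gOf σ = g →
      (Dom (bm σ) Y ↔ Dom (∑ a, offw (g a)) Y) := by
    intro σ hσ
    apply Dom_congr
    intro k l hkl
    rw [bm_eq, sum_offw, if_pos hkl, hσ]
  by_cases hd : Dom (∑ a, offw (g a)) Y
  · have e1 : (univ.filter (fun σ : Equiv.Perm (Fin (n * m)) => Dom (bm σ) Y)).filter
        (fun σ => gOf σ = g) = univ.filter (fun σ : Equiv.Perm (Fin (n * m)) => gOf σ = g) := by
      ext σ
      simp only [mem_filter, mem_univ, true_and]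
      exact ⟨fun h => h.2, fun h => ⟨(hD σ h).2 hd, h⟩⟩
    rw [e1, card_fiber hm]
    by_cases hb : ∀ l, ∑ k, cnt g k l = m
    · rw [if_pos hb, if_pos (show Adm Y g from ⟨(bal_iff g).2 hb, hd⟩), mul_one]
    · rw [if_neg hb, if_neg (fun h : Adm Y g => hb ((bal_iff g).1 h.1)), mul_zero]
  · rw [if_neg (fun h : Adm Y g => hd h.2), mul_zero, Finset.card_eq_zero]
    rw [Finset.eq_empty_iff_forall_notMem]
    intro σ hσ
    simp only [mem_filter, mem_univ, true_and] at hσ
    exact hd ((hD σ hσ.2).1 hσ.1)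

end Pool.Agent.H549R2.BR
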