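import Pool.Agent.H549R2.BR.Defs
import Pool.Agent.H618R2.Skew.Model

namespace Pool.Agent.H549R2.BR

open Finset Pool.Agent.H549R2.Convex Pool.Agent.H618R2.Skew

namespace ONE

theorem pig {n : ℕ} {φ : Fin n → Fin n} (hφ : Function.Injective φ) (U : Finset (Fin n))
    (k : Fin n) (hk : k ∉ U) (hk' : φ k ∈ U) : ∃ p ∈ U, φ p ∉ U := by
  by_contra hcon
  push Not at hcon
  have h1 : (insert k U).card ≤ U.card := by
    apply Finset.card_le_card_of_injOn φ
    · intro p hp
      rw [Finset.mem_coe, Finset.mem_insert] at hp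
      rcases hp with rfl | hp
      · exact hk'
      · exact hcon p hp
    · exact hφ.injOn
  rw [Finset.card_insert_of_notMem hk] at h1
  omega

theorem pig1 {n : ℕ} {φ : Fin n → Fin n} (hφ : Function.Injective φ) (k : Fin n) (t : ℕ)
    (h1 : k.val ≤ t) (h2 : t < (φ k).val) : ∃ p : Fin n, t < p.val ∧ (φ p).val ≤ t := by
  obtain ⟨p, hp, hp'⟩ := pig hφ (univ.filter fun p : Fin n => t < p.val) k (by simp; omega)
    (by simp; omega)
  simp only [mem_filter, mem_univ, true_and, not_lt] at hp hp'
  exact ⟨p, hp, hp'⟩

theorem pig2 {n : ℕ} {φ : Fin n → Fin n} (hφ : Function.Injective φ) (k : Fin n) (t : ℕ)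
    (h1 : t < k.val) (h2 : (φ k).val ≤ t) : ∃ p : Fin n, p.val ≤ t ∧ t < (φ p).val := by
  obtain ⟨p, hp, hp'⟩ := pig hφ (univ.filter fun p : Fin n => p.val ≤ t) k (by simp; omega)
    (by simp; omega)
  simp only [mem_filter, mem_univ, true_and, not_le] at hp hp'
  exact ⟨p, hp, hp'⟩

theorem sum_row {n : ℕ} (φ : Fin n → Fin n) (l : Fin n) :
    ∑ k, offw φ l k = if φ l ≠ l then 1 else 0 := by
  unfold offw
  rw [Finset.sum_eq_single (φ l)]
  · simp [eq_comm]
  · intro b _ hb
    rw [if_neg]
    rintro ⟨h, -⟩
    exact hb h.symm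
  · intro h; exact absurd (mem_univ _) h

theorem sum_col {n : ℕ} (φ : Fin n → Fin n) (l : Fin n) :
    ∑ k, offw φ k l + (if φ l = l then 1 else 0) = ∑ k, if φ k = l then 1 else 0 := by
  have h1 : (if φ l = l then 1 else 0 : ℕ) = ∑ k, if k = l then (if φ l = l then 1 else 0) else 0 := by
    rw [Finset.sum_ite_eq' univ l]
    simp
  rw [h1, ← Finset.sum_add_distrib]
  apply Finset.sum_congr rfl
  intro k _
  unfold offw
  by_cases hk : k = l
  · subst hk; simp
  · simp [hk]

theorem bal_iff {n : ℕ} (φ : Fin n → Fin n) : Bal (offw φ) ↔ Function.Bijective φ := by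
  constructor
  · intro h
    have hs : Function.Surjective φ := by
      intro l
      by_contra hcon
      push Not at hcon
      have h1 := h l
      rw [sum_row] at h1
      have h2 := sum_col φ l
      have h3 : (∑ k, if φ k = l then 1 else 0) = 0 := by
        apply Finset.sum_eq_zero
        intro k _
        rw [if_neg (hcon k)]
      rw [h1, h3] at h2
      have := hcon l
      simp [this] at h2
    exact ⟨Finite.injective_iff_surjective.2 hs, hs⟩
  · intro h l
    rw [sum_row]
    have h2 := sum_col φ l
    have h3 : (∑ k, if φ k = l then 1 else 0) = 1 := by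
      have := Equiv.sum_comp (Equiv.ofBijective φ h) (fun k => if k = l then 1 else 0)
      simp only [Equiv.ofBijective_apply] at this
      rw [this]
      simp
    rw [h3] at h2
    by_cases hl : φ l = l
    · simp [hl] at h2 ⊢; omega
    · simp [hl] at h2 ⊢; omega

theorem NE_pos {n : ℕ} {X : Fin n → Fin n → ℕ} {P Q : ℕ} (h : 0 < NE X P Q) :
    ∃ k l : Fin n, k.val < P ∧ Q ≤ l.val ∧ 0 < X k l := by
  by_contra hcon
  push Not at hcon
  have : NE X P Q = 0 := by
    unfold NE
    apply Finset.sum_eq_zero
    intro k _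
    apply Finset.sum_eq_zero
    intro l _
    split_ifs with hkl
    · exact Nat.le_zero.1 (hcon k l hkl.1 hkl.2)
    · rfl
  omega

theorem SW_pos {n : ℕ} {X : Fin n → Fin n → ℕ} {P Q : ℕ} (h : 0 < SW X P Q) :
    ∃ k l : Fin n, P ≤ k.val ∧ l.val < Q ∧ 0 < X k l := by
  by_contra hcon
  push Not at hcon
  have : SW X P Q = 0 := by
    unfold SW
    apply Finset.sum_eq_zero
    intro k _
    apply Finset.sum_eq_zero
    intro l _
    split_ifs with hkl
    · exact Nat.le_zero.1 (hcon k l hkl.1 hkl.2)
    · rfl
  omega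

theorem NE_ge {n : ℕ} {X : Fin n → Fin n → ℕ} {P Q : ℕ} (k l : Fin n) (hk : k.val < P)
    (hl : Q ≤ l.val) : X k l ≤ NE X P Q := by
  unfold NE
  have h1 : X k l ≤ ∑ l, (if k.val < P ∧ Q ≤ l.val then X k l else 0) := by
    have := Finset.single_le_sum (s := univ)
      (f := fun l : Fin n => if k.val < P ∧ Q ≤ l.val then X k l else 0)
      (fun _ _ => Nat.zero_le _) (mem_univ l)
    simpa [hk, hl] using this
  refine h1.trans ?_
  exact Finset.single_le_sum (s := univ)
      (f := fun k : Fin n => ∑ l, if k.val < P ∧ Q ≤ l.val then X k l else 0)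
      (fun _ _ => Nat.zero_le _) (mem_univ k)

theorem SW_ge {n : ℕ} {X : Fin n → Fin n → ℕ} {P Q : ℕ} (k l : Fin n) (hk : P ≤ k.val)
    (hl : l.val < Q) : X k l ≤ SW X P Q := by
  unfold SW
  have h1 : X k l ≤ ∑ l, (if P ≤ k.val ∧ l.val < Q then X k l else 0) := by
    have := Finset.single_le_sum (s := univ)
      (f := fun l : Fin n => if P ≤ k.val ∧ l.val < Q then X k l else 0)
      (fun _ _ => Nat.zero_le _) (mem_univ l)
    simpa [hk, hl] using this
  refine h1.trans ?_
  exact Finset.single_le_sum (s := univ)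
      (f := fun k : Fin n => ∑ l, if P ≤ k.val ∧ l.val < Q then X k l else 0)
      (fun _ _ => Nat.zero_le _) (mem_univ k)

theorem use_ent {A : List (List Bool)} {i j : ℕ} (h : use A i j = true) : ent A i j = true := by
  unfold use at h
  rw [Bool.and_eq_true] at h
  exact h.1

theorem use_live {A : List (List Bool)} {i j t : ℕ} (h : use A i j = true) (ht : t < A.length)
    (h1 : min i j ≤ t) (h2 : t < max i j) : live A t = true := by
  unfold use at h
  rw [Bool.and_eq_true, List.all_eq_true] at h
  have := h.2 t (List.mem_range.2 ht)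
  simpa [h1, h2] using this

theorem use_mk {A : List (List Bool)} {i j : ℕ} (h : ent A i j = true)
    (h' : ∀ t, min i j ≤ t → t < max i j → live A t = true) : use A i j = true := by
  unfold use
  rw [Bool.and_eq_true, List.all_eq_true]
  refine ⟨h, fun t _ => ?_⟩
  by_cases h1 : min i j ≤ t
  · by_cases h2 : t < max i j
    · simp [h' t h1 h2]
    · simp [h2]
  · simp [h1]

theorem cS_pos {A : List (List Bool)} {t : ℕ} (h : 0 < cS A t) : live A t = true := by
  unfold cS at h
  obtain ⟨i, hi, h1⟩ := Finset.exists_ne_zero_of_sum_ne_zero h.ne'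
  obtain ⟨j, hj, h2⟩ := Finset.exists_ne_zero_of_sum_ne_zero h1
  rw [mem_range] at hi hj
  by_cases hc : j ≤ t ∧ t < i ∧ use A i j = true
  · exact use_live hc.2.2 (by omega) (by omega) (by omega)
  · rw [if_neg hc] at h2
    exact absurd rfl h2

theorem cN_pos {A : List (List Bool)} {t : ℕ} (h : 0 < cN A t) : live A t = true := by
  unfold cN at h
  obtain ⟨i, hi, h1⟩ := Finset.exists_ne_zero_of_sum_ne_zero h.ne'
  obtain ⟨j, hj, h2⟩ := Finset.exists_ne_zero_of_sum_ne_zero h1
  rw [mem_range] at hi hj
  by_cases hc : i ≤ t ∧ t < j ∧ use A i j = true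
  · exact use_live hc.2.2 (by omega) (by omega) (by omega)
  · rw [if_neg hc] at h2
    exact absurd rfl h2

theorem live_ent {A : List (List Bool)} {t : ℕ} (h : live A t = true) :
    ent A t (t + 1) = true ∧ ent A (t + 1) t = true := by
  unfold live at h
  rwa [Bool.and_eq_true] at h

theorem dom_iff (A : List (List Bool)) (hst : Staircase A)
    (hd : ∀ i < A.length, ent A i i = true) (φ : Fin A.length → Fin A.length)
    (hφ : Function.Bijective φ) :
    Dom (offw φ) (fun k l => yA A k.val l.val) ↔ ∀ k, ent A k.val (φ k).val = true := by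
  constructor
  · intro h k
    rcases lt_trichotomy k.val (φ k).val with hk | hk | hk
    · have h1 : offw φ k (φ k) = 1 := by
        unfold offw
        rw [if_pos ⟨rfl, fun h => by rw [← h] at hk; exact lt_irrefl _ hk⟩]
      have h2 : 0 < NE (offw φ) (k.val + 1) (φ k).val := by
        have := NE_ge (X := offw φ) (P := k.val + 1) (Q := (φ k).val) k (φ k) (by omega) le_rfl
        omega
      have h3 := lt_of_lt_of_le h2 (h.1 (k.val + 1) (φ k).val (by omega))
      obtain ⟨k', l', hk', hl', hpos⟩ := NE_pos h3
      have h4 : ent A k'.val l'.val = true := by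
        unfold yA at hpos
        by_cases hu : use A k'.val l'.val = true
        · exact use_ent hu
        · have e1 : ¬ (k'.val = l'.val + 1) := by omega
          rw [if_neg (fun h => hu h.2), if_neg e1, zero_add, zero_add] at hpos
          by_cases e2 : l'.val = k'.val + 1
          · rw [if_pos e2] at hpos
            rw [e2]
            exact (live_ent (cS_pos hpos)).1
          · rw [if_neg e2] at hpos
            simp at hpos
      exact hst k' k k l' (φ k) k (by omega) le_rfl hk.le hl' h4 (hd k k.2)
    · rw [← hk]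
      exact hd k k.2
    · have h1 : offw φ k (φ k) = 1 := by
        unfold offw
        rw [if_pos ⟨rfl, fun h => by rw [← h] at hk; exact lt_irrefl _ hk⟩]
      have h2 : 0 < SW (offw φ) k.val ((φ k).val + 1) := by
        have := SW_ge (X := offw φ) (P := k.val) (Q := (φ k).val + 1) k (φ k) le_rfl (by omega)
        omega
      have h3 := lt_of_lt_of_le h2 (h.2 k.val ((φ k).val + 1) (by omega))
      obtain ⟨k', l', hk', hl', hpos⟩ := SW_pos h3
      have h4 : ent A k'.val l'.val = true := by
        unfold yA at hpos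
        by_cases hu : use A k'.val l'.val = true
        · exact use_ent hu
        · have e1 : ¬ (l'.val = k'.val + 1) := by omega
          rw [if_neg (fun h => hu h.2), if_neg e1, zero_add, add_zero] at hpos
          by_cases e2 : k'.val = l'.val + 1
          · rw [if_pos e2] at hpos
            rw [e2]
            exact (live_ent (cN_pos hpos)).2
          · rw [if_neg e2] at hpos
            simp at hpos
      exact hst k k k' k (φ k) l' le_rfl (by omega) (by omega) hk.le (hd k k.2) h4
  · intro h
    have huse : ∀ k, φ k ≠ k → use A k.val (φ k).val = true := by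
      intro k hk
      apply use_mk (h k)
      intro t ht1 ht2
      have hne : k.val ≠ (φ k).val := fun he => hk (Fin.ext he.symm)
      unfold live
      rw [Bool.and_eq_true]
      rcases lt_or_gt_of_ne hne with hlt | hgt
      · obtain ⟨p, hp1, hp2⟩ := pig1 hφ.1 k t (by omega) (by omega)
        exact ⟨hst k t p (φ k) (t + 1) (φ p) (by omega) (by omega) (by omega) (by omega) (h k) (h p),
          hst k (t + 1) p (φ k) t (φ p) (by omega) (by omega) (by omega) (by omega) (h k) (h p)⟩
      · obtain ⟨p, hp1, hp2⟩ := pig2 hφ.1 k t (by omega) (by omega)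
        exact ⟨hst p t k (φ p) (t + 1) (φ k) (by omega) (by omega) (by omega) (by omega) (h p) (h k),
          hst p (t + 1) k (φ p) t (φ k) (by omega) (by omega) (by omega) (by omega) (h p) (h k)⟩
    have hle : ∀ k l : Fin A.length, offw φ k l ≤ yA A k.val l.val := by
      intro k l
      unfold offw
      split_ifs with hkl
      · obtain ⟨rfl, hne⟩ := hkl
        have h1 := huse k (Ne.symm hne)
        unfold yA
        have hne' : k.val ≠ (φ k).val := fun he => hne (Fin.ext he)
        rw [if_pos ⟨hne', h1⟩]
        omega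
      · exact Nat.zero_le _
    constructor
    · intro P Q _
      unfold NE
      apply Finset.sum_le_sum
      intro k _
      apply Finset.sum_le_sum
      intro l _
      split_ifs
      · exact hle k l
      · exact le_rfl
    · intro P Q _
      unfold SW
      apply Finset.sum_le_sum
      intro k _
      apply Finset.sum_le_sum
      intro l _
      split_ifs
      · exact hle k l
      · exact le_rfl

theorem adm_iff (A : List (List Bool)) (hst : Staircase A)
    (hd : ∀ i < A.length, ent A i i = true) (g : Fin 1 → Fin A.length → Fin A.length) :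
    Adm (fun k l => yA A k.val l.val) g ↔
      Function.Bijective (g 0) ∧ ∀ k, ent A k.val (g 0 k).val = true := by
  unfold Adm
  have h1 : ∑ a, offw (g a) = offw (g 0) := by
    rw [Fin.sum_univ_one]
  rw [h1, bal_iff]
  constructor
  · rintro ⟨h2, h3⟩
    exact ⟨h2, (dom_iff A hst hd _ h2).1 h3⟩
  · rintro ⟨h2, h3⟩
    exact ⟨h2, (dom_iff A hst hd _ h2).2 h3⟩

end ONE

open ONE in
/-- **ONE** the value at `m = 1` is the permanent -/
theorem cnt_one (A : List (List Bool)) (hsq : ∀ r ∈ A, r.length = A.length) (hst : Staircase A)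
    (hd : ∀ i < A.length, ent A i i = true) :
    cntA A.length 1 (fun k l => yA A k.val l.val) = F A := by
  rw [F_eq_card' A hsq A.length rfl]
  unfold cntA
  have e : {g : Fin 1 → Fin A.length → Fin A.length // Adm (fun k l => yA A k.val l.val) g} ≃
      {σ : Equiv.Perm (Fin A.length) // ∀ i, ent A i.val (σ i).val = true} :=
    { toFun := fun g => ⟨Equiv.ofBijective (g.1 0) ((adm_iff A hst hd g.1).1 g.2).1,
        ((adm_iff A hst hd g.1).1 g.2).2⟩
      invFun := fun σ => ⟨fun _ => σ.1, (adm_iff A hst hd _).2 ⟨σ.1.bijective, σ.2⟩⟩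
      left_inv := by
        intro g
        apply Subtype.ext
        funext a
        have : a = 0 := Subsingleton.elim _ _
        subst this
        rfl
      right_inv := by
        intro σ
        apply Subtype.ext
        apply Equiv.ext
        intro x
        rfl }
  rw [Nat.card_congr e, Nat.card_eq_fintype_card, Fintype.card_subtype]

open ONE in
/-- a staircase with nonzero permanent contains the diagonal -/
theorem F_zero (A : List (List Bool)) (hsq : ∀ r ∈ A, r.length = A.length) (hst : Staircase A)
    (i : ℕ) (hi : i < A.length) (h : ent A i i = false) : F A = 0 := by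
  rw [F_eq_card' A hsq A.length rfl, Finset.card_eq_zero, Finset.filter_eq_empty_iff]
  intro σ _ hσ
  have h1 : ∃ p : Fin A.length, p.val ≤ i ∧ i ≤ (σ p).val := by
    by_cases hc : i ≤ (σ ⟨i, hi⟩).val
    · exact ⟨⟨i, hi⟩, le_rfl, hc⟩
    · push Not at hc
      obtain ⟨p, hp1, hp2⟩ := pig2 σ.injective ⟨i, hi⟩ (i - 1) (by simp only; omega) (by omega)
      exact ⟨p, by omega, by omega⟩
  have h2 : ∃ p : Fin A.length, i ≤ p.val ∧ (σ p).val ≤ i := by
    by_cases hc : (σ ⟨i, hi⟩).val ≤ i
    · exact ⟨⟨i, hi⟩, le_rfl, hc⟩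
    · push Not at hc
      obtain ⟨p, hp1, hp2⟩ := pig1 σ.injective ⟨i, hi⟩ i le_rfl hc
      exact ⟨p, by omega, by omega⟩
  obtain ⟨p, hp1, hp2⟩ := h1
  obtain ⟨p', hp1', hp2'⟩ := h2
  have := hst p i p' (σ p) i (σ p') hp1 hp1' hp2' hp2 (hσ p) (hσ p')
  rw [h] at this
  exact Bool.false_ne_true this

end Pool.Agent.H549R2.BR
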