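import Pool.Agent.H549R2.BR.P2
import Pool.Agent.H549R2.BR.P3
import Pool.Agent.H549R2.BR.T3
import Pool.Agent.H549R2.BR.T4
import Pool.Agent.H549R2.BR.T6
import Pool.Agent.H549R2.BR.T7

/-!
# The sizes of the lower intervals of the strong Bruhat order: the reduction
-/

namespace Pool.Agent.NPC.H549BR

open Pool.Agent.H549R2.Convex Pool.Agent.H549R2.BR Pool.Agent.H618R2.Skew Pool.Agent.NPC.Cnt
open Pool.Agent.NPC.H549NRed
open Pool.Agent.NPC.H549Convex (LL sqB)
open Pool.Agent.NPC.H549PM (alt alt_eq alt_congr)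

/-- the lists of values of permutations -/
def IsPm (l : List ℕ) : Prop :=
  ∃ (N : ℕ) (w : Equiv.Perm (Fin N)), l = List.ofFn fun i => (w i).val

theorem okB_iff (A : LL) : okB A = true ↔
    (∀ r ∈ A, r.length = A.length) ∧ ∀ i < A.length, ent A i i = true := by
  rw [okB, Bool.and_eq_true, sqB, List.all_eq_true, List.all_eq_true]
  simp

theorem mm_ge (A : LL) (t : ℕ) (ht : t ≤ DD A) :
    A.length * (1 + 2 * (A.length * A.length)) ≤ mm A t ∧ 0 < mm A t := by
  rw [mm, ss, cc]
  generalize A.length * (1 + 2 * (A.length * A.length)) = x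
  omega

theorem exists_perm (A : LL) (t : ℕ) (ht : t ≤ DD A) :
    ∃ w : Equiv.Perm (Fin (A.length * mm A t)), qB A t = (List.ofFn fun i => (w i).val) ∧
      ∀ σ, BLE σ w ↔ Dom (bm σ) (fun k l : Fin A.length => yA A k.val l.val) := by
  obtain ⟨h1, h2⟩ := mm_ge A t ht
  obtain ⟨w, hw, h3, h4, h5⟩ := exists_w (n := A.length) (m := mm A t) (xA A (mm A t))
    (fun k hk => xA_row A _ h1 k hk) (fun l hl => xA_col A _ h1 l hl)
  refine ⟨w, ?_, fun σ => ble_block h2 w σ _ h3 h4 fun k l hkl => ?_⟩
  · rw [qB]
    apply List.ext_getElem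
    · simp
    · intro i hi1 hi2
      rw [List.getElem_map, List.getElem_range, List.getElem_ofFn, hw]
  · rw [h5, xA, if_neg (fun h => hkl (Fin.ext h))]

theorem qsB_pm (A : LL) (l : List ℕ) (h : l ∈ qsB A) : IsPm l := by
  rw [qsB] at h
  cases hg : okB A with
  | false => rw [hg] at h; simp at h
  | true =>
    rw [hg, cond_true, List.mem_map] at h
    obtain ⟨t, ht, rfl⟩ := h
    rw [List.mem_range] at ht
    obtain ⟨w, hw, _⟩ := exists_perm A t (by omega)
    exact ⟨_, w, hw⟩

theorem below_qB (A : LL) (t : ℕ) (ht : t ≤ DD A) :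
    below (qB A t) = (mm A t).factorial ^ A.length *
      cntA A.length (mm A t) (fun k l : Fin A.length => yA A k.val l.val) := by
  obtain ⟨w, hw, hb⟩ := exists_perm A t ht
  rw [hw, below_ofFn, ← count_eq (mm_ge A t ht).2]
  exact Nat.card_congr (Equiv.subtypeEquivRight hb)

theorem exists_coeff (A : LL) : ∃ b : ℕ → ℕ, ∀ m,
    cntA A.length m (fun k l : Fin A.length => yA A k.val l.val) =
      ∑ j ∈ Finset.range (DD A + 1), m.choose j * b j := by
  refine support (Φ := Fin A.length → Fin A.length) (M := Fin A.length → Fin A.length → ℕ)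
    (fun k => k) offw ?_ (fun X => Bal X ∧ Dom X (fun k l : Fin A.length => yA A k.val l.val))
    (fun X => ∑ k, ∑ l, (if k = l then 0 else X k l)) ?_ ?_ (DD A) ?_
  · funext k l
    rw [offw, if_neg (fun h => h.2 h.1)]
    rfl
  · intro X Y
    rw [← Finset.sum_add_distrib]
    refine Finset.sum_congr rfl fun k _ => ?_
    rw [← Finset.sum_add_distrib]
    refine Finset.sum_congr rfl fun l _ => ?_
    split_ifs
    · rfl
    · rfl
  · intro φ hφ
    have h1 : ∃ k, φ k ≠ k := by
      by_contra h
      push Not at h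
      exact hφ (funext h)
    obtain ⟨k, hk⟩ := h1
    have h2 : (1 : ℕ) ≤ ∑ l, (if k = l then 0 else offw φ k l) := by
      refine le_trans ?_ (Finset.single_le_sum (f := fun l => if k = l then 0 else offw φ k l)
        (fun _ _ => Nat.zero_le _) (Finset.mem_univ (φ k)))
      rw [if_neg (Ne.symm hk), offw, if_pos ⟨rfl, Ne.symm hk⟩]
    exact h2.trans (Finset.single_le_sum
      (f := fun k => ∑ l, (if k = l then 0 else offw φ k l))
      (fun _ _ => Nat.zero_le _) (Finset.mem_univ k))
  · rintro X ⟨_, hX⟩
    exact dom_bound X _ (cc A) (fun k l => yA_le A k.val l.val) hX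

theorem even_DD (A : LL) : Even (DD A) := by
  rw [DD, mul_assoc]
  exact even_two_mul _

theorem postB_correct (A : LL) (hst : Staircase A) : postB (A, (qsB A).map below) = F A := by
  rw [postB]
  simp only
  cases hg : okB A with
  | false =>
    rw [cond_false]
    by_cases hsq : ∀ r ∈ A, r.length = A.length
    · have h1 : ¬ ∀ i < A.length, ent A i i = true := by
        intro h
        have := (okB_iff A).2 ⟨hsq, h⟩
        rw [hg] at this
        exact absurd this (by simp)
      push Not at h1
      obtain ⟨i, hi, h2⟩ := h1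
      exact (F_zero A hsq hst i hi (Bool.eq_false_iff.2 h2)).symm
    · rw [F, if_neg hsq]
  | true =>
    rw [cond_true]
    obtain ⟨hsq, hd⟩ := (okB_iff A).1 hg
    obtain ⟨b, hb⟩ := exists_coeff A
    rw [← cnt_one A hsq hst hd, hb 1]
    have hss : 2 ≤ ss A := by rw [ss]; omega
    rw [alt_congr _ _ (fun t => if t ≤ DD A then (DD A + ss A - 1 - t).choose (ss A - 1) *
      (∑ j ∈ Finset.range (DD A + 1), (DD A + ss A + 1 - t).choose j * b j) else 0)]
    · apply alt_eq
      exact extrap b (DD A) (ss A) (even_DD A) hss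
    · intro t _
      rw [tmB]
      simp only
      split_ifs with ht
      · have h1 : ((qsB A).map below).getD t 0 = below (qB A t) := by
          have h4 : qsB A = (List.range (DD A + 1)).map (fun t => qB A t) := by
            rw [qsB, hg, cond_true]
          rw [h4, List.map_map, List.getD_eq_getElem _ _ (by simp; omega), List.getElem_map,
            List.getElem_range, Function.comp]
        rw [h1, below_qB A t ht, Nat.mul_div_cancel_left _ (pow_pos (Nat.factorial_pos _) _),
          hb (mm A t), Nat.min_eq_left (by omega)]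
        rfl
      · rfl

/-- the permanents of staircase matrices reduce to the sizes of Bruhat intervals -/
theorem nred_below : NRed Staircase F IsPm below :=
  ⟨qsB, postB, pqsB, ppostB, fun A hA => ⟨fun l hl => qsB_pm A l hl, postB_correct A hA⟩⟩

theorem nred_FB : NRed (fun _ : LL => True) F IsPm below := nred_stair.comp nred_below

theorem nred_satB : NRed (fun _ : CNF ℕ => True) (fun φ => satCount φ) IsPm below :=
  nred_sat.comp nred_FB

theorem hard_below : SharpPHard (strFn below) :=
  hard_of_nred nred_satB (fun _ _ => rfl) _ below_bound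

theorem turing_below : TuringReduces (strFn F) (strFn below) :=
  turing_of_nred nred_FB (fun _ _ => rfl) _ below_bound

theorem fp_iff : FP (strFn F) ↔ ∃ g : List Bool → List Bool, PolyTime g ∧
    ∀ (N : ℕ) (w : Equiv.Perm (Fin N)), g (bits (List.ofFn fun i => (w i).val)) =
      (Nat.card {σ : Equiv.Perm (Fin N) // BLE σ w}).bits := by
  constructor
  · intro h
    have h1 : ∀ f : List Bool → ℕ, SharpP f → FP f := fun f hf =>
      sharpP_le_of_nred nred_sat ⟨_, h, fun A _ => by rw [strFn_bits]⟩ f hf
    refine ⟨_, h1 _ sharpP_below, fun N w => ?_⟩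
    rw [strFn_bits, below_ofFn]
  · rintro ⟨g, hg, hg2⟩
    refine fp_strFn (poly_of_nred nred_FB ⟨g, hg, ?_⟩)
    rintro l ⟨N, w, rfl⟩
    rw [hg2, below_ofFn]

end Pool.Agent.NPC.H549BR
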